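import Mathlib

open MeasureTheory Filter Topology

noncomputable section

namespace HB

/-- The Dirichlet polynomial `F(s) = ∑ₙ aₙ n^{-s}` (finite sum over `n ≥ 1`) at `s = it`. -/
def dirPoly (a : ℕ+ →₀ ℂ) (t : ℝ) : ℂ :=
  a.sum fun n c => c * ((n : ℕ) : ℂ) ^ (-(t * Complex.I))

/-- The mean `1/(2T) ∫_{|t| ≤ T} |F(it)| dt` of a Dirichlet polynomial. -/
def vMean (a : ℕ+ →₀ ℂ) (T : ℝ) : ℝ := 1 / (2 * T) * ∫ t in (-T)..T, ‖dirPoly a t‖

/-- The complex normed space `E`, with the linear map `ι` from the space of Dirichlet polynomials,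
is the Banach space `𝓗¹`: it is complete, `ι` has dense range, and the norm of `ι F` is
`lim_{T → ∞} 1/(2T) ∫_{|t| ≤ T} |F(it)| dt`. -/
structure IsHardyOne (E : Type*) [NormedAddCommGroup E] [NormedSpace ℂ E]
    (ι : (ℕ+ →₀ ℂ) →ₗ[ℂ] E) : Prop where
  complete : CompleteSpace E
  dense : DenseRange ι
  norm_eq : ∀ a, Tendsto (vMean a) atTop (𝓝 ‖ι a‖)

/-- A Schauder basis: every vector has a unique norm-convergent expansion. -/
def IsSchauderBasis {E : Type*} [NormedAddCommGroup E] [NormedSpace ℂ E] (e : ℕ → E) : Prop :=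
  ∀ x : E, ∃! c : ℕ → ℂ, Tendsto (fun N => ∑ n ∈ Finset.range N, c n • e n) atTop (𝓝 x)

/-- An unconditional basis: a Schauder basis such that the expansion of every vector converges in
norm under every rearrangement of its terms. -/
def IsUnconditionalBasis {E : Type*} [NormedAddCommGroup E] [NormedSpace ℂ E] (e : ℕ → E) : Prop :=
  IsSchauderBasis e ∧ ∀ (x : E) (c : ℕ → ℂ),
    Tendsto (fun N => ∑ n ∈ Finset.range N, c n • e n) atTop (𝓝 x) →
      ∀ σ : Equiv.Perm ℕ,
        ∃ y : E, Tendsto (fun N => ∑ n ∈ Finset.range N, c (σ n) • e (σ n)) atTop (𝓝 y)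

end HB
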