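import Pool.Agent.Helper821.HB.Rearr
import Pool.Agent.Helper821.HB.Defs

open Filter Topology
open scoped ENNReal

namespace HB

variable {E : Type*} [NormedAddCommGroup E] [NormedSpace ℂ E]

/-- Sum of absolute values controlled by subset sums. -/
lemma sum_norm_le_four (z : ℕ → ℂ) (S : Finset ℕ) (B : ℝ)
    (h : ∀ S' ⊆ S, ‖∑ n ∈ S', z n‖ ≤ B) : ∑ n ∈ S, ‖z n‖ ≤ 4 * B := by
  classical
  have key : ∀ g : ℂ → ℝ, (∀ x y, g (x + y) = g x + g y) → g 0 = 0 → (∀ x, |g x| ≤ ‖x‖) →
      ∑ n ∈ S, |g (z n)| ≤ 2 * B := by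
    intro g hadd h0 hle
    have hsum : ∀ S' : Finset ℕ, g (∑ n ∈ S', z n) = ∑ n ∈ S', g (z n) := by
      intro S'
      induction S' using Finset.induction_on with
      | empty => simpa using h0
      | insert a s ha ih => rw [Finset.sum_insert ha, Finset.sum_insert ha, hadd, ih]
    have h1 : ∑ n ∈ S, |g (z n)| = ∑ n ∈ S.filter (fun n => 0 ≤ g (z n)), g (z n) -
        ∑ n ∈ S.filter (fun n => ¬ 0 ≤ g (z n)), g (z n) := by
      rw [← Finset.sum_filter_add_sum_filter_not S (fun n => 0 ≤ g (z n))]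
      rw [sub_eq_add_neg, ← Finset.sum_neg_distrib]
      congr 1
      · exact Finset.sum_congr rfl fun n hn => abs_of_nonneg (Finset.mem_filter.1 hn).2
      · exact Finset.sum_congr rfl fun n hn =>
          abs_of_neg (not_le.1 (Finset.mem_filter.1 hn).2)
    rw [h1, ← hsum, ← hsum]
    have h2 := h (S.filter (fun n => 0 ≤ g (z n))) (Finset.filter_subset _ _)
    have h3 := h (S.filter (fun n => ¬ 0 ≤ g (z n))) (Finset.filter_subset _ _)
    have h4 := (abs_le.1 (hle (∑ n ∈ S.filter (fun n => 0 ≤ g (z n)), z n))).2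
    have h5 := (abs_le.1 (hle (∑ n ∈ S.filter (fun n => ¬ 0 ≤ g (z n)), z n))).1
    linarith
  have h1 := key Complex.re (fun x y => Complex.add_re x y) Complex.zero_re Complex.abs_re_le_norm
  have h2 := key Complex.im (fun x y => Complex.add_im x y) Complex.zero_im Complex.abs_im_le_norm
  have h3 : ∑ n ∈ S, ‖z n‖ ≤ ∑ n ∈ S, (|(z n).re| + |(z n).im|) :=
    Finset.sum_le_sum fun n _ => Complex.norm_le_abs_re_add_abs_im _
  rw [Finset.sum_add_distrib] at h3
  linarith

/-- An unconditional basis gives a system with uniformly bounded absolute expansions. -/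
theorem exists_system [CompleteSpace E] (e : ℕ → E) (he : IsUnconditionalBasis e) :
    ∃ (f : ℕ → E →ₗ[ℂ] ℂ) (K : ℝ), 0 ≤ K ∧
      (∀ x, Tendsto (fun N => ∑ n ∈ Finset.range N, f n x • e n) atTop (𝓝 x)) ∧
      (∀ (S : Finset ℕ) (x : E) (Ψ : E →L[ℂ] ℂ),
        ∑ n ∈ S, ‖f n x‖ * ‖Ψ (e n)‖ ≤ K * ‖x‖ * ‖Ψ‖) := by
  classical
  obtain ⟨hb, hu⟩ := he
  choose c hc hcu using hb
  have huniq : ∀ x (d : ℕ → ℂ), Tendsto (fun N => ∑ n ∈ Finset.range N, d n • e n) atTop (𝓝 x) →
      d = c x := fun x d hd => hcu x d hd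
  have hadd : ∀ x y, c (x + y) = c x + c y := by
    intro x y
    refine (huniq _ _ ?_).symm
    have := (hc x).add (hc y)
    simp only [← Finset.sum_add_distrib, ← add_smul] at this
    exact this
  have hsmul : ∀ (r : ℂ) x, c (r • x) = r • c x := by
    intro r x
    refine (huniq _ _ ?_).symm
    have := (hc x).const_smul r
    simp only [Finset.smul_sum, smul_smul] at this
    exact this
  let f : ℕ → E →ₗ[ℂ] ℂ := fun n =>
    { toFun := fun x => c x n
      map_add' := fun x y => by rw [hadd]; rfl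
      map_smul' := fun r x => by rw [hsmul]; rfl }
  have hf : ∀ n x, f n x = c x n := fun n x => rfl
  have hsummable : ∀ x, Summable (fun n => f n x • e n) := fun x =>
    summable_of_rearr _ (hu x (c x) (hc x))
  have hhasSum : ∀ x, HasSum (fun n => f n x • e n) x := by
    intro x
    have h1 := (hsummable x).hasSum
    have h2 := tendsto_nhds_unique h1.tendsto_sum_nat (hc x)
    rwa [h2] at h1
  -- boundedness of all finite partial sums
  have hbdd : ∀ x, BddAbove (Set.range fun S : Finset ℕ => ‖∑ n ∈ S, f n x • e n‖) := by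
    intro x
    obtain ⟨A₀, hA₀⟩ := summable_iff_vanishing_norm.mp (hsummable x) 1 zero_lt_one
    refine ⟨(∑ n ∈ A₀, ‖f n x • e n‖) + 1, ?_⟩
    rintro _ ⟨A, rfl⟩
    have hdecomp : ∑ n ∈ A, f n x • e n = ∑ n ∈ A ∩ A₀, f n x • e n + ∑ n ∈ A \ A₀, f n x • e n := by
      rw [← Finset.sum_union (Finset.disjoint_sdiff_inter A A₀).symm,
        Finset.union_comm, Finset.sdiff_union_inter]
    dsimp only
    rw [hdecomp]
    refine (norm_add_le _ _).trans (add_le_add ?_ (hA₀ (A \ A₀) Finset.sdiff_disjoint).le)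
    refine (norm_sum_le _ _).trans ?_
    exact Finset.sum_le_sum_of_subset_of_nonneg Finset.inter_subset_right
      (fun _ _ _ => norm_nonneg _)
  let Φ : E →ₗ[ℂ] lp (fun _ : Finset ℕ => E) ∞ :=
    { toFun := fun x => ⟨fun S => ∑ n ∈ S, f n x • e n, memℓp_infty (hbdd x)⟩
      map_add' := fun x y => by
        ext S
        show ∑ n ∈ S, f n (x + y) • e n = ∑ n ∈ S, f n x • e n + ∑ n ∈ S, f n y • e n
        rw [← Finset.sum_add_distrib]
        exact Finset.sum_congr rfl fun n _ => by rw [map_add, add_smul]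
      map_smul' := fun r x => by
        ext S
        show ∑ n ∈ S, f n (r • x) • e n = r • ∑ n ∈ S, f n x • e n
        rw [Finset.smul_sum]
        exact Finset.sum_congr rfl fun n _ => by rw [map_smul, smul_eq_mul, mul_smul] }
  have hΦ : ∀ x S, (Φ x : Finset ℕ → E) S = ∑ n ∈ S, f n x • e n := fun x S => rfl
  have hcont : Continuous Φ := by
    apply LinearMap.continuous_of_seq_closed_graph
    intro u x g hux hug
    have hpt : ∀ S, Tendsto (fun k => (Φ (u k) : Finset ℕ → E) S) atTop
        (𝓝 ((g : Finset ℕ → E) S)) := by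
      intro S
      rw [tendsto_iff_norm_sub_tendsto_zero] at hug ⊢
      refine squeeze_zero (fun _ => norm_nonneg _) (fun k => ?_) hug
      exact lp.norm_apply_le_norm (by simp) ((Φ (u k)) - g) S
    have hline : ∀ n, ∃ d : ℂ, d • e n = (g : Finset ℕ → E) {n} := by
      intro n
      have hclosed : IsClosed ((Submodule.span ℂ {e n} : Submodule ℂ E) : Set E) :=
        Submodule.closed_of_finiteDimensional _
      have hmem : (g : Finset ℕ → E) {n} ∈ (Submodule.span ℂ {e n} : Submodule ℂ E) := by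
        refine hclosed.mem_of_tendsto (hpt {n}) (Eventually.of_forall fun k => ?_)
        rw [hΦ, Finset.sum_singleton]
        exact Submodule.smul_mem _ _ (Submodule.mem_span_singleton_self _)
      exact Submodule.mem_span_singleton.1 hmem
    choose d hd using hline
    have hgS : ∀ S, (g : Finset ℕ → E) S = ∑ n ∈ S, d n • e n := by
      intro S
      refine tendsto_nhds_unique (hpt S) ?_
      have : Tendsto (fun k => ∑ n ∈ S, (Φ (u k) : Finset ℕ → E) {n}) atTop
          (𝓝 (∑ n ∈ S, (g : Finset ℕ → E) {n})) := tendsto_finsetSum _ fun n _ => hpt {n}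
      simp only [hΦ, Finset.sum_singleton] at this
      simp only [hΦ, hd]
      exact this
    have hsumd : HasSum (fun n => d n • e n) x := by
      rw [HasSum]
      simp only [SummationFilter.unconditional_filter]
      rw [Metric.tendsto_atTop]
      intro ε hε
      have h1 := (Metric.tendsto_atTop.1 hux) (ε / 3) (by positivity)
      have h2 := (Metric.tendsto_atTop.1 hug) (ε / 3) (by positivity)
      obtain ⟨N1, hN1⟩ := h1
      obtain ⟨N2, hN2⟩ := h2
      set k := max N1 N2
      have hk1 := hN1 k (le_max_left _ _)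
      have hk2 := hN2 k (le_max_right _ _)
      have h3 := hhasSum (u k)
      rw [HasSum] at h3
      simp only [SummationFilter.unconditional_filter] at h3
      obtain ⟨S0, hS0⟩ := (Metric.tendsto_atTop.1 h3) (ε / 3) (by positivity)
      refine ⟨S0, fun S hS => ?_⟩
      have hk3 := hS0 S hS
      have hk4 : dist (∑ n ∈ S, d n • e n) (∑ n ∈ S, f n (u k) • e n) < ε / 3 := by
        rw [← hgS, ← hΦ, dist_comm, dist_eq_norm]
        refine lt_of_le_of_lt ?_ hk2
        rw [dist_eq_norm]
        exact lp.norm_apply_le_norm (by simp) ((Φ (u k)) - g) S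
      calc dist (∑ n ∈ S, d n • e n) x ≤ dist (∑ n ∈ S, d n • e n) (∑ n ∈ S, f n (u k) • e n) +
            dist (∑ n ∈ S, f n (u k) • e n) (u k) + dist (u k) x := dist_triangle4 _ _ _ _
        _ < ε := by linarith
    have hdc := huniq x d hsumd.tendsto_sum_nat
    ext S
    rw [hgS, hΦ]
    exact Finset.sum_congr rfl fun n _ => by rw [hdc, hf]
  let Φc : E →L[ℂ] lp (fun _ : Finset ℕ => E) ∞ := ⟨Φ, hcont⟩
  refine ⟨f, 4 * ‖Φc‖, by positivity, hc, ?_⟩
  intro S x Ψ
  have h1 : ∀ S' : Finset ℕ, ‖∑ n ∈ S', f n x • e n‖ ≤ ‖Φc‖ * ‖x‖ := by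
    intro S'
    refine le_trans ?_ (Φc.le_opNorm x)
    exact lp.norm_apply_le_norm (by simp) (Φ x) S'
  have h2 := sum_norm_le_four (fun n => f n x * Ψ (e n)) S (‖Ψ‖ * (‖Φc‖ * ‖x‖)) (by
    intro S' _
    have h3 : ∑ n ∈ S', f n x * Ψ (e n) = Ψ (∑ n ∈ S', f n x • e n) := by
      rw [map_sum]; exact Finset.sum_congr rfl fun n _ => by rw [map_smul, smul_eq_mul]
    rw [h3]
    exact (Ψ.le_opNorm _).trans (mul_le_mul_of_nonneg_left (h1 S') (norm_nonneg _)))
  simp only [norm_mul] at h2
  refine h2.trans (le_of_eq ?_)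
  ring

end HB
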