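import Mathlib

/-!
From no certificate to a dominating measure (Hahn-Banach + Riesz-Markov).
-/

open MeasureTheory Filter Topology
open scoped ComplexConjugate

noncomputable section

namespace HB

/-- Three complex coefficients. -/
abbrev V3 := Fin 3 → ℂ

/-- The bilinear pairing. -/
def dot (a t : V3) : ℂ := ∑ i, a i * t i

lemma dot_comm (a t : V3) : dot a t = dot t a := by
  simp [dot, mul_comm]

lemma dot_three (a t : V3) : dot a t = a 0 * t 0 + a 1 * t 1 + a 2 * t 2 := by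
  simp [dot, Fin.sum_univ_three]

/-- The `L¹(𝕋)` norm of the polynomial `t₀ + t₁ z + t₂ z²`. -/
def N1 (t : V3) : ℝ := ∫ θ : UnitAddCircle, ‖∑ i : Fin 3, t i * fourier (i : ℤ) θ‖

/-- `ψ` is represented by a measurable function bounded by `D`. -/
def Adm (ψ : V3) (D : ℝ) : Prop :=
  ∃ Φ : UnitAddCircle → ℂ, Measurable Φ ∧ (∀ θ, ‖Φ θ‖ ≤ D) ∧
    ∀ j : Fin 3, ψ j = ∫ θ : UnitAddCircle, fourier (j : ℤ) θ * Φ θ

/-- Finite families of weighted test pairs. -/
structure Cert where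
  ι : Type
  fι : Fintype ι
  c : ι → ℝ
  hc : ∀ i, 0 ≤ c i
  t : ι → V3
  ψ : ι → V3
  κ : Type
  fκ : Fintype κ
  d : κ → ℝ
  hd : ∀ j, 0 ≤ d j
  t' : κ → V3
  ψ' : κ → V3
  D : κ → ℝ
  hD : ∀ j, Adm (ψ' j) (D j)

attribute [instance] Cert.fι Cert.fκ

namespace Cert

/-- lower sum at `(a,b)` -/
def lo (C : Cert) (a b : V3) : ℝ := ∑ i, C.c i * (‖dot a (C.t i)‖ * ‖dot b (C.ψ i)‖)
/-- upper sum at `(a,b)` -/
def up (C : Cert) (a b : V3) : ℝ := ∑ j, C.d j * (‖dot a (C.t' j)‖ * ‖dot b (C.ψ' j)‖)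
/-- lower value -/
def lov (C : Cert) : ℝ := ∑ i, C.c i * ‖dot (C.ψ i) (C.t i)‖
/-- upper value -/
def upv (C : Cert) : ℝ := ∑ j, C.d j * (N1 (C.t' j) * C.D j)

/-- Sum of two certificates. -/
def add (C C' : Cert) : Cert where
  ι := C.ι ⊕ C'.ι
  fι := inferInstance
  c := Sum.elim C.c C'.c
  hc := by rintro (i | i) <;> simp [C.hc, C'.hc]
  t := Sum.elim C.t C'.t
  ψ := Sum.elim C.ψ C'.ψ
  κ := C.κ ⊕ C'.κ
  fκ := inferInstance
  d := Sum.elim C.d C'.d
  hd := by rintro (i | i) <;> simp [C.hd, C'.hd]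
  t' := Sum.elim C.t' C'.t'
  ψ' := Sum.elim C.ψ' C'.ψ'
  D := Sum.elim C.D C'.D
  hD := by rintro (i | i) <;> simp [C.hD, C'.hD]

/-- Scaling of a certificate. -/
def smul (r : ℝ) (hr : 0 ≤ r) (C : Cert) : Cert where
  ι := C.ι
  fι := inferInstance
  c := fun i => r * C.c i
  hc := fun i => mul_nonneg hr (C.hc i)
  t := C.t
  ψ := C.ψ
  κ := C.κ
  fκ := inferInstance
  d := fun i => r * C.d i
  hd := fun i => mul_nonneg hr (C.hd i)
  t' := C.t'
  ψ' := C.ψ'
  D := C.D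
  hD := C.hD

/-- Empty certificate. -/
def zero : Cert where
  ι := Empty
  fι := inferInstance
  c := fun i => i.elim
  hc := fun i => i.elim
  t := fun i => i.elim
  ψ := fun i => i.elim
  κ := Empty
  fκ := inferInstance
  d := fun i => i.elim
  hd := fun i => i.elim
  t' := fun i => i.elim
  ψ' := fun i => i.elim
  D := fun i => i.elim
  hD := fun i => i.elim

/-- Certificate with a single lower pair. -/
def low (t ψ : V3) : Cert where
  ι := Unit
  fι := inferInstance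
  c := fun _ => 1
  hc := fun _ => zero_le_one
  t := fun _ => t
  ψ := fun _ => ψ
  κ := Empty
  fκ := inferInstance
  d := fun i => i.elim
  hd := fun i => i.elim
  t' := fun i => i.elim
  ψ' := fun i => i.elim
  D := fun i => i.elim
  hD := fun i => i.elim

/-- Certificate with a single upper pair. -/
def upp (t ψ : V3) (D : ℝ) (h : Adm ψ D) : Cert where
  ι := Empty
  fι := inferInstance
  c := fun i => i.elim
  hc := fun i => i.elim
  t := fun i => i.elim
  ψ := fun i => i.elim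
  κ := Unit
  fκ := inferInstance
  d := fun _ => 1
  hd := fun _ => zero_le_one
  t' := fun _ => t
  ψ' := fun _ => ψ
  D := fun _ => D
  hD := fun _ => h

lemma lo_add (C C' : Cert) (a b : V3) : (C.add C').lo a b = C.lo a b + C'.lo a b :=
  Fintype.sum_sum_type (α₁ := C.ι) (α₂ := C'.ι) _
lemma up_add (C C' : Cert) (a b : V3) : (C.add C').up a b = C.up a b + C'.up a b :=
  Fintype.sum_sum_type (α₁ := C.κ) (α₂ := C'.κ) _
lemma lov_add (C C' : Cert) : (C.add C').lov = C.lov + C'.lov :=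
  Fintype.sum_sum_type (α₁ := C.ι) (α₂ := C'.ι) _
lemma upv_add (C C' : Cert) : (C.add C').upv = C.upv + C'.upv :=
  Fintype.sum_sum_type (α₁ := C.κ) (α₂ := C'.κ) _

lemma lo_smul (r : ℝ) (hr : 0 ≤ r) (C : Cert) (a b : V3) :
    (C.smul r hr).lo a b = r * C.lo a b := by
  unfold lo; rw [Finset.mul_sum]
  exact Finset.sum_congr rfl fun i _ => mul_assoc _ _ _
lemma up_smul (r : ℝ) (hr : 0 ≤ r) (C : Cert) (a b : V3) :
    (C.smul r hr).up a b = r * C.up a b := by
  unfold up; rw [Finset.mul_sum]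
  exact Finset.sum_congr rfl fun i _ => mul_assoc _ _ _
lemma lov_smul (r : ℝ) (hr : 0 ≤ r) (C : Cert) : (C.smul r hr).lov = r * C.lov := by
  unfold lov; rw [Finset.mul_sum]
  exact Finset.sum_congr rfl fun i _ => mul_assoc _ _ _
lemma upv_smul (r : ℝ) (hr : 0 ≤ r) (C : Cert) : (C.smul r hr).upv = r * C.upv := by
  unfold upv; rw [Finset.mul_sum]
  exact Finset.sum_congr rfl fun i _ => mul_assoc _ _ _

@[simp] lemma zero_lo (a b : V3) : zero.lo a b = 0 := Finset.sum_eq_zero fun i _ => i.elim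
@[simp] lemma zero_up (a b : V3) : zero.up a b = 0 := Finset.sum_eq_zero fun i _ => i.elim
@[simp] lemma zero_lov : zero.lov = 0 := Finset.sum_eq_zero fun i _ => i.elim
@[simp] lemma zero_upv : zero.upv = 0 := Finset.sum_eq_zero fun i _ => i.elim

lemma low_lo (t ψ a b : V3) : (low t ψ).lo a b = ‖dot a t‖ * ‖dot b ψ‖ :=
  (Fintype.sum_unique (ι := Unit) (fun _ => (1 : ℝ) * (‖dot a t‖ * ‖dot b ψ‖))).trans (one_mul _)
@[simp] lemma low_up (t ψ a b : V3) : (low t ψ).up a b = 0 :=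
  Finset.sum_eq_zero fun i _ => i.elim
lemma low_lov (t ψ : V3) : (low t ψ).lov = ‖dot ψ t‖ :=
  (Fintype.sum_unique (ι := Unit) (fun _ => (1 : ℝ) * ‖dot ψ t‖)).trans (one_mul _)
@[simp] lemma low_upv (t ψ : V3) : (low t ψ).upv = 0 := Finset.sum_eq_zero fun i _ => i.elim

@[simp] lemma upp_lo (t ψ : V3) (D : ℝ) (h : Adm ψ D) (a b : V3) : (upp t ψ D h).lo a b = 0 :=
  Finset.sum_eq_zero fun i _ => i.elim
lemma upp_up (t ψ : V3) (D : ℝ) (h : Adm ψ D) (a b : V3) :
    (upp t ψ D h).up a b = ‖dot a t‖ * ‖dot b ψ‖ :=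
  (Fintype.sum_unique (ι := Unit) (fun _ => (1 : ℝ) * (‖dot a t‖ * ‖dot b ψ‖))).trans (one_mul _)
@[simp] lemma upp_lov (t ψ : V3) (D : ℝ) (h : Adm ψ D) : (upp t ψ D h).lov = 0 :=
  Finset.sum_eq_zero fun i _ => i.elim
lemma upp_upv (t ψ : V3) (D : ℝ) (h : Adm ψ D) : (upp t ψ D h).upv = N1 t * D :=
  (Fintype.sum_unique (ι := Unit) (fun _ => (1 : ℝ) * (N1 t * D))).trans (one_mul _)

end Cert

/-- The unit sphere of coefficient space (sup norm). -/
abbrev SP := Metric.sphere (0 : V3) 1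
/-- The compact space of pairs. -/
abbrev PP := SP × SP

lemma continuous_dot_left (t : V3) : Continuous (fun a : V3 => dot a t) := by
  unfold dot; fun_prop

/-- The function `(a,b) ↦ |a·t||b·ψ|` on the compact space `PP`. -/
def hfun (t ψ : V3) : CompactlySupportedContinuousMap PP ℝ where
  toFun := fun p => ‖dot p.1.1 t‖ * ‖dot p.2.1 ψ‖
  continuous_toFun := by
    have h1 := continuous_dot_left t
    have h2 := continuous_dot_left ψ
    exact ((h1.comp (continuous_subtype_val.comp continuous_fst)).norm).mul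
      ((h2.comp (continuous_subtype_val.comp continuous_snd)).norm)
  hasCompactSupport' := HasCompactSupport.of_compactSpace _

lemma hfun_apply (t ψ : V3) (p : PP) : hfun t ψ p = ‖dot p.1.1 t‖ * ‖dot p.2.1 ψ‖ := rfl

end HB
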