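import Pool.Agent.Helper821.HB.Meas

open MeasureTheory Filter Topology
open scoped ComplexConjugate

noncomputable section

namespace HB

lemma norm_fourier_one (θ : UnitAddCircle) : ‖(fourier 1 θ : ℂ)‖ = 1 := by
  simp [Circle.norm_coe, fourier_apply]

lemma norm_fourier_int (n : ℤ) (θ : UnitAddCircle) : ‖(fourier n θ : ℂ)‖ = 1 := by
  simp [Circle.norm_coe, fourier_apply]

lemma fourier_two (θ : UnitAddCircle) : (fourier 2 θ : ℂ) = (fourier 1 θ : ℂ) ^ 2 := by
  rw [pow_two, ← fourier_add]; norm_num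

lemma poly_eq (t : V3) (θ : UnitAddCircle) :
    ∑ i : Fin 3, t i * fourier (i : ℤ) θ =
      t 0 + t 1 * fourier 1 θ + t 2 * (fourier 1 θ : ℂ) ^ 2 := by
  rw [Fin.sum_univ_three, ← fourier_two]
  simp

/-- the polynomials with nonnegative symbol -/
def tc (c : ℂ) : V3 := ![c / 2, 1, conj c / 2]

lemma tc_norm_aux (c z : ℂ) (hc : ‖c‖ ≤ 1) (hz : ‖z‖ = 1) :
    ‖c / 2 + 1 * z + conj c / 2 * z ^ 2‖ = 1 + (conj c * z).re := by
  have hzz : z * conj z = 1 := by
    rw [Complex.mul_conj, Complex.normSq_eq_norm_sq, hz]; norm_num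
  have h1 : c / 2 + 1 * z + conj c / 2 * z ^ 2 = z * ((1 + (conj c * z).re : ℝ) : ℂ) := by
    have h2 : ((conj c * z).re : ℂ) = (conj c * z + conj (conj c * z)) / 2 := by
      rw [Complex.add_conj]; push_cast; ring
    push_cast
    rw [h2, map_mul, Complex.conj_conj]
    linear_combination (-c / 2) * hzz
  have h3 : (0 : ℝ) ≤ 1 + (conj c * z).re := by
    have h4 : |(conj c * z).re| ≤ ‖conj c * z‖ := Complex.abs_re_le_norm _
    rw [norm_mul, hz, RCLike.norm_conj, mul_one] at h4
    have h5 := (abs_le.1 (h4.trans hc)).1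
    linarith
  rw [h1, norm_mul, hz, one_mul, Complex.norm_real, Real.norm_of_nonneg h3]

lemma integrable_cont (f : UnitAddCircle → ℂ) (hf : Continuous f) : Integrable f :=
  hf.integrable_of_hasCompactSupport (HasCompactSupport.of_compactSpace _)

lemma integrable_contR (f : UnitAddCircle → ℝ) (hf : Continuous f) : Integrable f :=
  hf.integrable_of_hasCompactSupport (HasCompactSupport.of_compactSpace _)

lemma continuous_fourier (n : ℤ) : Continuous (fun θ : UnitAddCircle => (fourier n θ : ℂ)) :=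
  map_continuous (fourier n)

lemma N1_tc (c : ℂ) (hc : ‖c‖ ≤ 1) : N1 (tc c) = 1 := by
  unfold N1
  have h1 : ∀ θ : UnitAddCircle, ‖∑ i : Fin 3, tc c i * fourier (i : ℤ) θ‖ =
      1 + (conj c * fourier 1 θ).re := by
    intro θ
    rw [poly_eq]
    exact tc_norm_aux c _ hc (norm_fourier_one θ)
  simp_rw [h1]
  have hi : Integrable (fun θ : UnitAddCircle => conj c * (fourier 1 θ : ℂ)) :=
    integrable_cont _ (continuous_const.mul (continuous_fourier 1))
  have hre : Integrable (fun θ : UnitAddCircle => (conj c * (fourier 1 θ : ℂ)).re) := hi.re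
  rw [integral_add (integrable_const _) hre]
  have h2 : ∫ θ : UnitAddCircle, (conj c * (fourier 1 θ : ℂ)).re =
      (∫ θ : UnitAddCircle, conj c * (fourier 1 θ : ℂ)).re := by
    exact integral_re hi
  rw [h2, integral_const_mul, integral_fourier]
  simp [measureReal_def]

lemma conj_fourier_one (θ : UnitAddCircle) : conj (fourier 1 θ : ℂ) = fourier (-1) θ := by
  rw [fourier_neg]

lemma fourier_neg_two (θ : UnitAddCircle) : (fourier (-2) θ : ℂ) = (conj (fourier 1 θ : ℂ)) ^ 2 := by
  rw [conj_fourier_one, pow_two, ← fourier_add]; norm_num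

lemma adm_y (y : ℂ) : Adm ![y, 1, -conj y] (1 + 2 * ‖y‖ ^ 2) := by
  have hc := continuous_fourier
  have hcont : Continuous (fun θ : UnitAddCircle =>
      y * (fourier 0 θ : ℂ) + 1 * fourier (-1) θ + (-conj y) * fourier (-2) θ) :=
    ((continuous_const.mul (hc 0)).add (continuous_const.mul (hc _))).add
      (continuous_const.mul (hc _))
  refine ⟨_, hcont.measurable, ?_, ?_⟩
  · intro θ
    rw [fourier_zero, ← conj_fourier_one, fourier_neg_two]
    set z : ℂ := fourier 1 θ with hz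
    have hz1 : ‖z‖ = 1 := norm_fourier_one θ
    have hzz : z * conj z = 1 := by
      rw [Complex.mul_conj, Complex.normSq_eq_norm_sq, hz1]; norm_num
    have h1 : y * 1 + 1 * conj z + -conj y * (conj z) ^ 2 =
        conj z * (1 + (2 * (y * z).im : ℝ) * Complex.I) := by
      have h2 : (((y * z).im : ℝ) : ℂ) * Complex.I = (y * z - conj (y * z)) / 2 := by
        rw [Complex.sub_conj]; push_cast; ring
      push_cast
      rw [mul_assoc 2, h2, map_mul]
      linear_combination (-y) * hzz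
    rw [h1, norm_mul, RCLike.norm_conj, hz1, one_mul]
    have h3 : ‖(1 : ℂ) + (2 * (y * z).im : ℝ) * Complex.I‖ ^ 2 = 1 + (2 * (y * z).im) ^ 2 := by
      rw [← Complex.normSq_eq_norm_sq]
      simp [Complex.normSq_apply]
      ring
    have h4 : ((y * z).im) ^ 2 ≤ ‖y‖ ^ 2 := by
      have := Complex.abs_im_le_norm (y * z)
      rw [norm_mul, hz1, mul_one] at this
      exact sq_le_sq' (by have := neg_abs_le (y * z).im; linarith) (le_trans (le_abs_self _) this)
    refine (sq_le_sq₀ (norm_nonneg _) (by positivity)).1 ?_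
    rw [h3]
    nlinarith [sq_nonneg (‖y‖ ^ 2), sq_nonneg ‖y‖]
  · intro j
    have h1 : ∀ θ : UnitAddCircle, (fourier (j : ℤ) θ : ℂ) *
        (y * (fourier 0 θ : ℂ) + 1 * fourier (-1) θ + (-conj y) * fourier (-2) θ) =
        y * fourier (j : ℤ) θ + 1 * fourier ((j : ℤ) - 1) θ
          + (-conj y) * fourier ((j : ℤ) - 2) θ := by
      intro θ
      rw [sub_eq_add_neg, sub_eq_add_neg, fourier_add, fourier_add, fourier_zero]
      ring
    simp_rw [h1]
    have hi : ∀ (c : ℂ) (n : ℤ), Integrable (fun θ : UnitAddCircle => c * (fourier n θ : ℂ)) :=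
      fun c n => integrable_cont _ (continuous_const.mul (hc n))
    have hi2 : Integrable (fun θ : UnitAddCircle => y * (fourier (j : ℤ) θ : ℂ) +
      1 * fourier ((j : ℤ) - 1) θ) := (hi _ _).add (hi _ _)
    rw [integral_add hi2 (hi _ _), integral_add (hi _ _) (hi _ _),
      integral_const_mul, integral_const_mul, integral_const_mul, integral_fourier,
      integral_fourier, integral_fourier]
    fin_cases j <;> simp

/-- the conjugate sign of `1 + z` -/
def sgnF (θ : UnitAddCircle) : ℂ := conj (1 + (fourier 1 θ : ℂ)) / ‖1 + (fourier 1 θ : ℂ)‖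

lemma measurable_sgnF : Measurable sgnF := by
  unfold sgnF
  have h1 : Continuous (fun θ : UnitAddCircle => 1 + (fourier 1 θ : ℂ)) :=
    continuous_const.add (continuous_fourier 1)
  exact ((Complex.continuous_conj.comp h1).measurable).div
    ((Complex.continuous_ofReal.comp h1.norm).measurable)

lemma norm_sgnF_le (θ : UnitAddCircle) : ‖sgnF θ‖ ≤ 1 := by
  unfold sgnF
  rw [norm_div, RCLike.norm_conj, Complex.norm_real, norm_norm]
  exact div_self_le_one _

lemma mul_sgnF (θ : UnitAddCircle) :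
    (1 + (fourier 1 θ : ℂ)) * sgnF θ = (‖1 + (fourier 1 θ : ℂ)‖ : ℝ) := by
  unfold sgnF
  by_cases h : ‖1 + (fourier 1 θ : ℂ)‖ = 0
  · have : 1 + (fourier 1 θ : ℂ) = 0 := norm_eq_zero.1 h
    rw [this]; simp
  · rw [← mul_div_assoc, Complex.mul_conj, Complex.normSq_eq_norm_sq]
    rw [div_eq_iff (by exact_mod_cast h)]
    push_cast; ring

lemma sgnF_coe (x : ℝ) (hx : x ∈ Set.Ioo (-(1 / 2) : ℝ) (1 / 2)) :
    sgnF (x : UnitAddCircle) = Complex.exp (-(Real.pi * x * Complex.I)) := by
  unfold sgnF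
  have h1 : (fourier 1 (x : UnitAddCircle) : ℂ) = Complex.exp (2 * (Real.pi * x * Complex.I)) := by
    rw [fourier_coe_apply]; congr 1; push_cast; ring
  have hcos : 0 < Real.cos (Real.pi * x) := by
    apply Real.cos_pos_of_mem_Ioo
    constructor
    · nlinarith [Real.pi_pos, hx.1]
    · nlinarith [Real.pi_pos, hx.2]
  have h2 : 1 + Complex.exp (2 * (Real.pi * x * Complex.I)) =
      ((2 * Real.cos (Real.pi * x) : ℝ) : ℂ) * Complex.exp (Real.pi * x * Complex.I) := by
    push_cast
    rw [Complex.cos, show (2 : ℂ) * (Real.pi * x * Complex.I) =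
      Real.pi * x * Complex.I + Real.pi * x * Complex.I by ring, Complex.exp_add]
    have h3 : Complex.exp (-(Real.pi * x : ℂ) * Complex.I) * Complex.exp (Real.pi * x * Complex.I)
      = 1 := by
      rw [← Complex.exp_add]; simp
    linear_combination -h3
  rw [h1, h2]
  rw [map_mul, Complex.conj_ofReal, norm_mul, Complex.norm_real,
    Real.norm_of_nonneg (by positivity)]
  have h4 : ‖Complex.exp (Real.pi * x * Complex.I)‖ = 1 := by
    have := Complex.norm_exp_ofReal_mul_I (Real.pi * x)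
    simpa using this
  rw [h4, mul_one, mul_div_cancel_left₀ _ (by exact_mod_cast (by positivity : (2 * Real.cos (Real.pi * x)) ≠ 0)),
    ← Complex.exp_conj]
  congr 1
  simp

lemma psi_val (j : ℤ) : ∫ θ : UnitAddCircle, (fourier j θ : ℂ) * sgnF θ =
    (Complex.exp ((2 * j - 1) * Real.pi * Complex.I * (1 / 2)) -
      Complex.exp (-((2 * j - 1) * Real.pi * Complex.I * (1 / 2)))) /
        ((2 * j - 1) * Real.pi * Complex.I) := by
  rw [← UnitAddCircle.intervalIntegral_preimage (-(1 / 2))]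
  rw [show (-(1 / 2) + 1 : ℝ) = 1 / 2 by norm_num]
  have h1 : ∀ᵐ x ∂(volume : Measure ℝ), x ∈ Set.uIoc (-(1 / 2) : ℝ) (1 / 2) →
      (fourier j (x : UnitAddCircle) : ℂ) * sgnF (x : UnitAddCircle) =
      Complex.exp ((2 * j - 1) * Real.pi * Complex.I * x) := by
    have : ∀ᵐ x ∂(volume : Measure ℝ), x ≠ 1 / 2 := by
      exact Measure.ae_ne volume (1 / 2 : ℝ)
    filter_upwards [this] with x hx hmem
    rw [Set.uIoc_of_le (by norm_num)] at hmem
    rw [sgnF_coe x ⟨hmem.1, lt_of_le_of_ne hmem.2 hx⟩, fourier_coe_apply, ← Complex.exp_add]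
    congr 1
    push_cast; ring
  rw [intervalIntegral.integral_congr_ae h1, integral_exp_mul_complex]
  · push_cast
    congr 2
    · congr 1
      ring
  · refine mul_ne_zero (mul_ne_zero ?_ ?_) Complex.I_ne_zero
    · intro h
      have : (2 * j - 1 : ℤ) = 0 := by exact_mod_cast h
      omega
    · exact_mod_cast Real.pi_ne_zero

lemma exp_half : Complex.exp (Real.pi * Complex.I * (1 / 2)) = Complex.I := by
  rw [show (Real.pi * Complex.I * (1 / 2) : ℂ) = Real.pi / 2 * Complex.I by ring,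
    Complex.exp_pi_div_two_mul_I]

lemma exp_half_neg : Complex.exp (-(Real.pi * Complex.I * (1 / 2))) = -Complex.I := by
  rw [show (-(Real.pi * Complex.I * (1 / 2)) : ℂ) = -(Real.pi / 2 * Complex.I) by ring,
    Complex.exp_neg, Complex.exp_pi_div_two_mul_I, Complex.inv_I]

lemma piI_ne : (Real.pi * Complex.I : ℂ) ≠ 0 :=
  mul_ne_zero (by exact_mod_cast Real.pi_ne_zero) Complex.I_ne_zero

lemma psi_zero : ∫ θ : UnitAddCircle, (fourier 0 θ : ℂ) * sgnF θ = 2 / Real.pi := by
  rw [psi_val]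
  rw [show ((2 * ((0 : ℤ) : ℂ) - 1) * Real.pi * Complex.I * (1 / 2)) =
    -(Real.pi * Complex.I * (1 / 2)) by push_cast; ring, neg_neg, exp_half, exp_half_neg]
  have h := piI_ne
  have hp : (Real.pi : ℂ) ≠ 0 := by exact_mod_cast Real.pi_ne_zero
  have hI := Complex.I_ne_zero
  field_simp
  push_cast; ring

lemma psi_one : ∫ θ : UnitAddCircle, (fourier 1 θ : ℂ) * sgnF θ = 2 / Real.pi := by
  rw [psi_val]
  rw [show ((2 * ((1 : ℤ) : ℂ) - 1) * Real.pi * Complex.I * (1 / 2)) =
    (Real.pi * Complex.I * (1 / 2)) by push_cast; ring, exp_half, exp_half_neg]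
  have h := piI_ne
  have hp : (Real.pi : ℂ) ≠ 0 := by exact_mod_cast Real.pi_ne_zero
  have hI := Complex.I_ne_zero
  field_simp
  push_cast; ring

lemma psi_two : ∫ θ : UnitAddCircle, (fourier 2 θ : ℂ) * sgnF θ = -2 / (3 * Real.pi) := by
  rw [psi_val]
  have e1 : Complex.exp ((2 * ((2 : ℤ) : ℂ) - 1) * Real.pi * Complex.I * (1 / 2)) = -Complex.I := by
    rw [show ((2 * ((2 : ℤ) : ℂ) - 1) * Real.pi * Complex.I * (1 / 2)) =
      -(Real.pi * Complex.I * (1 / 2)) + 2 * Real.pi * Complex.I by push_cast; ring,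
      Complex.exp_add, Complex.exp_two_pi_mul_I, mul_one, exp_half_neg]
  have e2 : Complex.exp (-((2 * ((2 : ℤ) : ℂ) - 1) * Real.pi * Complex.I * (1 / 2))) =
      Complex.I := by
    rw [Complex.exp_neg, e1, ← Complex.inv_I, inv_inv]
  rw [e1, e2]
  have h := piI_ne
  have hp : (Real.pi : ℂ) ≠ 0 := by exact_mod_cast Real.pi_ne_zero
  have hI := Complex.I_ne_zero
  field_simp
  push_cast; ring

lemma exists_rot (s : ℂ) (hs : ‖s‖ = 1) : ∃ σ : UnitAddCircle, (fourier 1 σ : ℂ) = s := by
  refine ⟨((Complex.arg s / (2 * Real.pi) : ℝ) : UnitAddCircle), ?_⟩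
  rw [fourier_coe_apply]
  have h := Complex.norm_mul_exp_arg_mul_I s
  rw [hs, Complex.ofReal_one, one_mul] at h
  have hp : (Real.pi : ℂ) ≠ 0 := by exact_mod_cast Real.pi_ne_zero
  have h2 : (2 * Real.pi * Complex.I * ((1 : ℤ) : ℂ) * ((Complex.arg s / (2 * Real.pi) : ℝ) : ℂ) /
      ((1 : ℝ) : ℂ)) = Complex.arg s * Complex.I := by
    push_cast
    field_simp
  rw [h2, h]

lemma fourier_add_arg (n : ℤ) (θ σ : UnitAddCircle) :
    (fourier n (θ + σ) : ℂ) = fourier n θ * fourier n σ := by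
  simp [fourier_apply, smul_add, AddCircle.toCircle_add]

/-- the value `4/π` -/
def nval : ℝ := 4 / Real.pi

lemma integral_norm_one_add : ∫ θ : UnitAddCircle, ‖1 + (fourier 1 θ : ℂ)‖ = nval := by
  have h1 : ((∫ θ : UnitAddCircle, ‖1 + (fourier 1 θ : ℂ)‖ : ℝ) : ℂ) = (nval : ℂ) := by
    rw [← integral_complex_ofReal]
    have h2 : ∀ θ : UnitAddCircle, ((‖1 + (fourier 1 θ : ℂ)‖ : ℝ) : ℂ) =
        (fourier 0 θ : ℂ) * sgnF θ + (fourier 1 θ : ℂ) * sgnF θ := by
      intro θ
      rw [← mul_sgnF, fourier_zero]; ring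
    have hi : ∀ n : ℤ, Integrable (fun θ : UnitAddCircle => (fourier n θ : ℂ) * sgnF θ) := by
      intro n
      refine Integrable.of_bound ((continuous_fourier n).measurable.mul
        measurable_sgnF).aestronglyMeasurable 1 (Eventually.of_forall fun θ => ?_)
      rw [norm_mul, norm_fourier_int, one_mul]
      exact norm_sgnF_le θ
    simp_rw [h2]
    rw [integral_add (hi 0) (hi 1), psi_zero, psi_one]
    unfold nval
    push_cast; ring
  exact_mod_cast h1

lemma N1_s (s : ℂ) (hs : ‖s‖ = 1) : N1 ![1, s, 0] = nval := by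
  obtain ⟨σ, hσ⟩ := exists_rot s hs
  rw [← integral_norm_one_add, ← integral_add_right_eq_self _ σ]
  unfold N1
  congr 1
  ext θ
  rw [poly_eq, fourier_add_arg, hσ]
  congr 1
  simp
  ring

lemma adm_s (s : ℂ) (hs : ‖s‖ = 1) :
    Adm ![(2 / Real.pi : ℂ), conj s * (2 / Real.pi), conj s ^ 2 * (-2 / (3 * Real.pi))] 1 := by
  obtain ⟨σ, hσ⟩ := exists_rot s hs
  refine ⟨fun θ => sgnF (θ + σ), measurable_sgnF.comp (measurable_add_const σ),
    fun θ => norm_sgnF_le _, ?_⟩
  have hss : s * conj s = 1 := by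
    rw [Complex.mul_conj, Complex.normSq_eq_norm_sq, hs]; norm_num
  have key : ∀ n : ℤ, (∫ θ : UnitAddCircle, (fourier n θ : ℂ) * sgnF (θ + σ)) * fourier n σ =
      ∫ θ : UnitAddCircle, (fourier n θ : ℂ) * sgnF θ := by
    intro n
    rw [← integral_add_right_eq_self (fun θ : UnitAddCircle => (fourier n θ : ℂ) * sgnF θ) σ,
      ← integral_mul_const]
    congr 1
    ext θ
    rw [fourier_add_arg]; ring
  intro j
  fin_cases j
  · have := key 0
    rw [psi_zero, fourier_zero, mul_one] at this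
    simpa using this.symm
  · have := key 1
    rw [psi_one, hσ] at this
    have h2 : conj s * (2 / Real.pi : ℂ) = ∫ θ : UnitAddCircle, (fourier 1 θ : ℂ) * sgnF (θ + σ) := by
      rw [← this]
      linear_combination (∫ θ : UnitAddCircle, (fourier 1 θ : ℂ) * sgnF (θ + σ)) * hss
    simpa using h2
  · have := key 2
    rw [psi_two, fourier_two, hσ] at this
    have h2 : conj s ^ 2 * (-2 / (3 * Real.pi) : ℂ) =
        ∫ θ : UnitAddCircle, (fourier 2 θ : ℂ) * sgnF (θ + σ) := by
      rw [← this]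
      linear_combination (∫ θ : UnitAddCircle, (fourier 2 θ : ℂ) * sgnF (θ + σ)) *
        (s * conj s + 1) * hss
    simpa using h2

end HB
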