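import Pool.Agent.Helper821.HB.Rigid3

open Filter Topology
open scoped ComplexConjugate

noncomputable section

namespace HB

lemma linear_eq_dot (g : V3 →ₗ[ℂ] ℂ) : ∃ a : V3, ∀ t, g t = dot a t := by
  refine ⟨fun i => g (fun j => if i = j then 1 else 0), fun t => ?_⟩
  rw [LinearMap.pi_apply_eq_sum_univ g t]
  unfold dot
  exact Finset.sum_congr rfl fun i _ => by rw [smul_eq_mul, mul_comm]

/-- freeze all coordinates except the first -/
def headMap {k : ℕ} (g : MultilinearMap ℂ (fun _ : Fin (k + 1) => V3) ℂ) (v : Fin k → V3) :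
    V3 →ₗ[ℂ] ℂ where
  toFun := fun t => g (Fin.cons t v)
  map_add' := fun x y => MultilinearMap.cons_add g v x y
  map_smul' := fun c x => MultilinearMap.cons_smul g v c x

lemma headMap_apply {k : ℕ} (g : MultilinearMap ℂ (fun _ : Fin (k + 1) => V3) ℂ)
    (v : Fin k → V3) (t : V3) : headMap g v t = g (Fin.cons t v) := rfl

/-- tensor power of the domination -/
lemma tensor_ineq (C : Cert) (hC : ∀ a b, C.lo a b ≤ C.up a b) : ∀ (k : ℕ)
    (g h : MultilinearMap ℂ (fun _ : Fin k => V3) ℂ),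
    ∑ i : Fin k → C.ι, (∏ j, C.c (i j)) * (‖g (fun j => C.t (i j))‖ * ‖h (fun j => C.ψ (i j))‖) ≤
    ∑ i : Fin k → C.κ, (∏ j, C.d (i j)) * (‖g (fun j => C.t' (i j))‖ * ‖h (fun j => C.ψ' (i j))‖) := by
  intro k
  induction k with
  | zero =>
    intro g h
    rw [Fintype.sum_unique, Fintype.sum_unique]
    simp only [Finset.univ_eq_empty, Finset.prod_empty, one_mul]
    have e1 : (fun j : Fin 0 => C.t ((default : Fin 0 → C.ι) j)) =
        fun j => C.t' ((default : Fin 0 → C.κ) j) := Subsingleton.elim _ _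
    have e2 : (fun j : Fin 0 => C.ψ ((default : Fin 0 → C.ι) j)) =
        fun j => C.ψ' ((default : Fin 0 → C.κ) j) := Subsingleton.elim _ _
    rw [e1, e2]
  | succ k ih =>
    intro g h
    have hcons : ∀ {α : Type} (s : α → V3) (i0 : α) (i' : Fin k → α),
        (fun j => s ((Fin.cons i0 i' : Fin (k + 1) → α) j)) =
          Fin.cons (s i0) (fun j => s (i' j)) := by
      intro α s i0 i'
      funext j
      refine Fin.cases ?_ (fun j => ?_) j
      · simp
      · simp
    rw [← (Fin.consEquiv (fun _ => C.ι)).sum_comp, ← (Fin.consEquiv (fun _ => C.κ)).sum_comp,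
      Fintype.sum_prod_type, Fintype.sum_prod_type]
    simp only [Fin.consEquiv_apply, Fin.prod_univ_succ, Fin.cons_zero, Fin.cons_succ]
    have hL : ∀ (i0 : C.ι), ∑ i' : Fin k → C.ι, (C.c i0 * ∏ j, C.c (i' j)) *
        (‖g (fun j => C.t ((Fin.cons i0 i' : Fin (k + 1) → C.ι) j))‖ *
          ‖h (fun j => C.ψ ((Fin.cons i0 i' : Fin (k + 1) → C.ι) j))‖) ≤
        ∑ m' : Fin k → C.κ, (∏ j, C.d (m' j)) * (C.c i0 *
          (‖g (Fin.cons (C.t i0) (fun j => C.t' (m' j)))‖ *
          ‖h (Fin.cons (C.ψ i0) (fun j => C.ψ' (m' j)))‖)) := by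
      intro i0
      have h1 := mul_le_mul_of_nonneg_left (ih (g.curryLeft (C.t i0)) (h.curryLeft (C.ψ i0)))
        (C.hc i0)
      simp only [MultilinearMap.curryLeft_apply] at h1
      rw [Finset.mul_sum, Finset.mul_sum] at h1
      refine (le_of_eq ?_).trans (h1.trans (le_of_eq ?_))
      · refine Finset.sum_congr rfl fun i' _ => ?_
        rw [hcons, hcons]; ring
      · refine Finset.sum_congr rfl fun i' _ => ?_
        ring
    refine (Finset.sum_le_sum fun i0 _ => hL i0).trans ?_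
    rw [Finset.sum_comm]
    conv_rhs => rw [Finset.sum_comm]
    refine Finset.sum_le_sum fun m' _ => ?_
    rw [← Finset.mul_sum]
    obtain ⟨a, ha⟩ := linear_eq_dot (headMap g (fun j => C.t' (m' j)))
    obtain ⟨b, hb⟩ := linear_eq_dot (headMap h (fun j => C.ψ' (m' j)))
    have h2 := hC a b
    unfold Cert.lo Cert.up at h2
    simp only [← ha, ← hb, headMap_apply] at h2
    have hd : 0 ≤ ∏ j, C.d (m' j) := Finset.prod_nonneg fun j _ => C.hd _
    refine (mul_le_mul_of_nonneg_left h2 hd).trans (le_of_eq ?_)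
    rw [Finset.mul_sum]
    refine Finset.sum_congr rfl fun m0 _ => ?_
    rw [hcons, hcons]; ring

/-- A system: an unconditional basis-like expansion together with tensor-product test
functionals. -/
theorem no_system {E : Type*} [NormedAddCommGroup E] [NormedSpace ℂ E]
    (e : ℕ → E) (f : ℕ → E →ₗ[ℂ] ℂ) (K : ℝ) (hK0 : 0 ≤ K)
    (hexp : ∀ x, Tendsto (fun N => ∑ n ∈ Finset.range N, f n x • e n) atTop (𝓝 x))
    (hK : ∀ (S : Finset ℕ) (x : E) (Ψ : E →L[ℂ] ℂ),
        ∑ n ∈ S, ‖f n x‖ * ‖Ψ (e n)‖ ≤ K * ‖x‖ * ‖Ψ‖)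
    (hJ : ∀ k : ℕ, ∃ (J : MultilinearMap ℂ (fun _ : Fin k => V3) E)
      (Ψ : MultilinearMap ℂ (fun _ : Fin k => V3) (E →L[ℂ] ℂ)),
      (∀ t, ‖J t‖ ≤ ∏ j, N1 (t j)) ∧
      (∀ (ψ : Fin k → V3) (D : Fin k → ℝ), (∀ j, Adm (ψ j) (D j)) → ‖Ψ ψ‖ ≤ ∏ j, D j) ∧
      (∀ t ψ, Ψ ψ (J t) = ∏ j, dot (ψ j) (t j))) : False := by
  apply exists_cert
  intro C hC
  -- k-th power estimate
  have hpow : ∀ k : ℕ, C.lov ^ k ≤ K * C.upv ^ k := by
    intro k
    obtain ⟨J, Ψ, hJ1, hΨ1, hJΨ⟩ := hJ k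
    have step1 : ∀ n : ℕ, ∑ i : Fin k → C.ι, (∏ j, C.c (i j)) *
        (‖f n (J (fun j => C.t (i j)))‖ * ‖Ψ (fun j => C.ψ (i j)) (e n)‖) ≤
        ∑ i : Fin k → C.κ, (∏ j, C.d (i j)) *
        (‖f n (J (fun j => C.t' (i j)))‖ * ‖Ψ (fun j => C.ψ' (i j)) (e n)‖) := by
      intro n
      have := tensor_ineq C hC k ((f n).compMultilinearMap J)
        ((ContinuousLinearMap.apply ℂ ℂ (e n)).toLinearMap.compMultilinearMap Ψ)
      simpa using this
    have step2 : ∀ N : ℕ, ∑ i : Fin k → C.ι, (∏ j, C.c (i j)) *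
        ‖∑ n ∈ Finset.range N, f n (J (fun j => C.t (i j))) * Ψ (fun j => C.ψ (i j)) (e n)‖ ≤
        K * C.upv ^ k := by
      intro N
      calc _ ≤ ∑ i : Fin k → C.ι, (∏ j, C.c (i j)) * ∑ n ∈ Finset.range N,
            (‖f n (J (fun j => C.t (i j)))‖ * ‖Ψ (fun j => C.ψ (i j)) (e n)‖) := by
            refine Finset.sum_le_sum fun i _ => mul_le_mul_of_nonneg_left ?_
              (Finset.prod_nonneg fun j _ => C.hc _)
            refine (norm_sum_le _ _).trans (le_of_eq ?_)
            exact Finset.sum_congr rfl fun n _ => norm_mul _ _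
        _ = ∑ n ∈ Finset.range N, ∑ i : Fin k → C.ι, (∏ j, C.c (i j)) *
            (‖f n (J (fun j => C.t (i j)))‖ * ‖Ψ (fun j => C.ψ (i j)) (e n)‖) := by
            rw [Finset.sum_comm]
            exact Finset.sum_congr rfl fun i _ => Finset.mul_sum _ _ _
        _ ≤ ∑ n ∈ Finset.range N, ∑ i : Fin k → C.κ, (∏ j, C.d (i j)) *
            (‖f n (J (fun j => C.t' (i j)))‖ * ‖Ψ (fun j => C.ψ' (i j)) (e n)‖) :=
            Finset.sum_le_sum fun n _ => step1 n
        _ = ∑ i : Fin k → C.κ, (∏ j, C.d (i j)) * ∑ n ∈ Finset.range N,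
            (‖f n (J (fun j => C.t' (i j)))‖ * ‖Ψ (fun j => C.ψ' (i j)) (e n)‖) := by
            rw [Finset.sum_comm]
            exact Finset.sum_congr rfl fun i _ => (Finset.mul_sum _ _ _).symm
        _ ≤ ∑ i : Fin k → C.κ, (∏ j, C.d (i j)) *
            (K * (∏ j, N1 (C.t' (i j))) * ∏ j, C.D (i j)) := by
            refine Finset.sum_le_sum fun i _ => mul_le_mul_of_nonneg_left ?_
              (Finset.prod_nonneg fun j _ => C.hd _)
            refine (hK _ _ _).trans ?_
            have h1 := hJ1 (fun j => C.t' (i j))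
            have h2 := hΨ1 (fun j => C.ψ' (i j)) (fun j => C.D (i j)) (fun j => C.hD _)
            have h3 : 0 ≤ ∏ j, N1 (C.t' (i j)) := (norm_nonneg _).trans h1
            gcongr
        _ = K * C.upv ^ k := by
            unfold Cert.upv
            have : (∑ j, C.d j * (N1 (C.t' j) * C.D j)) ^ k =
                ∏ _j : Fin k, (∑ j, C.d j * (N1 (C.t' j) * C.D j)) := by
              rw [Finset.prod_const]; simp
            rw [this, Fintype.prod_sum, Finset.mul_sum]
            refine Finset.sum_congr rfl fun i _ => ?_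
            rw [Finset.prod_mul_distrib, Finset.prod_mul_distrib]; ring
    have step3 : Tendsto (fun N : ℕ => ∑ i : Fin k → C.ι, (∏ j, C.c (i j)) *
        ‖∑ n ∈ Finset.range N, f n (J (fun j => C.t (i j))) * Ψ (fun j => C.ψ (i j)) (e n)‖) atTop
        (𝓝 (C.lov ^ k)) := by
      have h1 : C.lov ^ k = ∑ i : Fin k → C.ι, (∏ j, C.c (i j)) *
          ‖Ψ (fun j => C.ψ (i j)) (J (fun j => C.t (i j)))‖ := by
        unfold Cert.lov
        have : (∑ i, C.c i * ‖dot (C.ψ i) (C.t i)‖) ^ k =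
            ∏ _j : Fin k, (∑ i, C.c i * ‖dot (C.ψ i) (C.t i)‖) := by
          rw [Finset.prod_const]; simp
        rw [this, Fintype.prod_sum]
        refine Finset.sum_congr rfl fun i _ => ?_
        rw [Finset.prod_mul_distrib, hJΨ, norm_prod]
      rw [h1]
      refine tendsto_finsetSum _ fun i _ => ?_
      refine Tendsto.const_mul _ (Tendsto.norm ?_)
      have h2 := ((Ψ (fun j => C.ψ (i j))).continuous.tendsto _).comp
        (hexp (J (fun j => C.t (i j))))
      refine h2.congr fun N => ?_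
      simp only [Function.comp, map_sum, map_smul, smul_eq_mul]
    exact le_of_tendsto' step3 step2
  have hup : 0 ≤ C.upv := by
    unfold Cert.upv
    refine Finset.sum_nonneg fun j _ => mul_nonneg (C.hd j) (mul_nonneg ?_ ?_)
    · exact MeasureTheory.integral_nonneg fun θ => norm_nonneg _
    · obtain ⟨Φ, -, hΦ, -⟩ := C.hD j
      exact (norm_nonneg _).trans (hΦ 0)
  by_contra hcon
  push Not at hcon
  have hlo : 0 < C.lov := lt_of_le_of_lt hup hcon
  rcases hup.eq_or_lt with h0 | h0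
  · have := hpow 1
    rw [← h0] at this
    simp at this
    linarith
  · have hr : 1 < C.lov / C.upv := by rwa [one_lt_div h0]
    obtain ⟨k, hk⟩ := pow_unbounded_of_one_lt K hr
    have := hpow k
    rw [div_pow, lt_div_iff₀ (by positivity)] at hk
    linarith

end HB
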