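import Pool.Agent.Helper821.HB.NormF
import Pool.Agent.Helper821.HB.Tensor

open MeasureTheory Filter Topology
open scoped ComplexConjugate

noncomputable section

namespace HB

/-- the multilinear map `t ↦ ∑_I (∏ⱼ tⱼ(Iⱼ)) v_I` -/
def tens {k : ℕ} {F : Type*} [AddCommGroup F] [Module ℂ F] (v : (Fin k → Fin 3) → F) :
    MultilinearMap ℂ (fun _ : Fin k => V3) F :=
  ∑ I : Fin k → Fin 3, ((MultilinearMap.mkPiAlgebra ℂ (Fin k) ℂ).compLinearMap
    (fun j => LinearMap.proj (I j))).smulRight (v I)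

lemma tens_apply {k : ℕ} {F : Type*} [AddCommGroup F] [Module ℂ F] (v : (Fin k → Fin 3) → F)
    (t : Fin k → V3) : tens v t = ∑ I : Fin k → Fin 3, (∏ j, t j (I j)) • v I := by
  unfold tens
  rw [sum_apply]
  rfl

/-- exponents of `n_I` -/
def cI {k : ℕ} (I : Fin k → Fin 3) : Fin k × Bool → ℕ :=
  fun x => if x.2 then 2 - (I x.1 : ℕ) else (I x.1 : ℕ)

/-- `n_I = ∏ pⱼ^{Iⱼ} qⱼ^{2-Iⱼ}` -/
def nI {k : ℕ} (I : Fin k → Fin 3) : ℕ+ :=
  ⟨∏ x : Fin k × Bool, pr (upx x) ^ cI I x, Finset.prod_pos fun _ _ => pow_pos (pr_prime _).pos _⟩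

lemma vv_nI_lt {k : ℕ} (I : Fin k → Fin 3) (x : Fin k × Bool) : vv (nI I) (upx x) = cI I x := by
  have h := factorization_prod_pr (fun x : Fin k × Bool => pr (upx x)) (fun x => pr_prime _)
    (cI I) (pr (upx x))
  have hinj : Function.Injective (fun x : Fin k × Bool => pr (upx x)) := pr_inj.comp upx_inj
  have h2 : ∀ y : Fin k × Bool, (pr (upx y) = pr (upx x)) ↔ y = x := fun y => hinj.eq_iff
  simp only [h2, Finset.sum_ite_eq', Finset.mem_univ, if_true] at h
  exact h

lemma vv_nI_ge {k : ℕ} (I : Fin k → Fin 3) (y : ℕ × Bool) (hy : k ≤ y.1) : vv (nI I) y = 0 := by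
  have h := factorization_prod_pr (fun x : Fin k × Bool => pr (upx x)) (fun x => pr_prime _)
    (cI I) (pr y)
  have h2 : ∀ x : Fin k × Bool, pr (upx x) ≠ pr y := by
    intro x hx
    have := pr_inj hx
    have h3 : (x.1 : ℕ) = y.1 := congrArg Prod.fst this
    have := x.1.2
    omega
  simp only [h2, if_false, Finset.sum_const_zero] at h
  exact h

lemma bd_nI {k : ℕ} (I : Fin k → Fin 3) : Bd k (nI I) := fun y hy => vv_nI_ge I y hy

lemma eq_of_vv (n m : ℕ+) (h : ∀ y, vv n y = vv m y) : n = m := by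
  apply PNat.eq
  apply Nat.eq_of_factorization_eq n.ne_zero m.ne_zero
  intro p
  by_cases hp : p.Prime
  · obtain ⟨x, rfl⟩ := pr_surj hp
    exact h x
  · rw [Nat.factorization_eq_zero_of_not_prime _ hp, Nat.factorization_eq_zero_of_not_prime _ hp]

lemma nI_inj {k : ℕ} : Function.Injective (nI (k := k)) := by
  intro I I' h
  ext j
  have h1 := vv_nI_lt I (j, false)
  have h2 := vv_nI_lt I' (j, false)
  rw [h] at h1
  have h3 := h1.symm.trans h2
  simpa [cI] using h3

lemma torusPoly_sum {κ : Type} [Fintype κ] (e : ℕ+ → κ → ℤ) {k : ℕ} (c : (Fin k → Fin 3) → ℂ)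
    (x : UnitAddTorus κ) :
    torusPoly e (∑ I, c I • Finsupp.single (nI I) 1) x =
      ∑ I, c I * UnitAddTorus.mFourier (e (nI I)) x := by
  have h1 : ∀ a : ℕ+ →₀ ℂ, torusPoly e a =
      Finsupp.linearCombination ℂ (fun n => UnitAddTorus.mFourier (e n)) a := by
    intro a
    rw [Finsupp.linearCombination_apply]; rfl
  rw [h1, map_sum, ContinuousMap.coe_sum]
  simp [Finsupp.linearCombination_single]

lemma ex_nI_true {k : ℕ} (I : Fin k → Fin 3) (j : Fin k) : ex k (nI I) (j, true) = 2 := by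
  have h1 := vv_nI_lt I (j, false)
  have h2 := vv_nI_lt I (j, true)
  simp only [upx, cI, if_true] at h1 h2
  simp only [Bool.false_eq_true, if_false] at h1
  simp only [ex, if_true]
  rw [h1, h2]
  have := (I j).2
  omega

lemma ex_nI_false {k : ℕ} (I : Fin k → Fin 3) (j : Fin k) :
    ex k (nI I) (j, false) = (I j : ℕ) := by
  have h1 := vv_nI_lt I (j, false)
  simp only [upx, cI] at h1
  simp only [Bool.false_eq_true, if_false] at h1
  simp only [ex]
  simp only [Bool.false_eq_true, if_false]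
  rw [h1]

section
variable {E : Type*} [NormedAddCommGroup E] [NormedSpace ℂ E] {ι : (ℕ+ →₀ ℂ) →ₗ[ℂ] E}

/-- (A1) -/
lemma norm_J_le (h : IsHardyOne E ι) {k : ℕ} (t : Fin k → V3) :
    ‖tens (fun I => ι (Finsupp.single (nI I) 1)) t‖ ≤ ∏ j, N1 (t j) := by
  classical
  have h1 : tens (fun I => ι (Finsupp.single (nI I) 1)) t =
      ι (∑ I : Fin k → Fin 3, (∏ j, t j (I j)) • Finsupp.single (nI I) 1) := by
    rw [tens_apply, map_sum]
    exact Finset.sum_congr rfl fun I _ => (map_smul _ _ _).symm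
  have hsupp : ∀ n ∈ (∑ I : Fin k → Fin 3,
      (∏ j, t j (I j)) • (Finsupp.single (nI I) 1 : ℕ+ →₀ ℂ)).support, Bd k n := by
    intro n hn
    by_contra hcon
    rw [Finsupp.mem_support_iff] at hn
    apply hn
    rw [Finsupp.finsetSum_apply]
    refine Finset.sum_eq_zero fun I _ => ?_
    have : nI I ≠ n := fun h' => hcon (h' ▸ bd_nI I)
    simp [this]
  rw [h1, norm_eq_integral h hsupp]
  have h2 : ∀ x : UnitAddTorus (Fin k × Bool),
      ‖torusPoly (ex k) (∑ I : Fin k → Fin 3, (∏ j, t j (I j)) • Finsupp.single (nI I) 1) x‖ =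
      ∏ y : Fin k × Bool, (if y.2 then (1 : ℝ) else ‖∑ i : Fin 3, t y.1 i * fourier (i : ℤ) (x y)‖) := by
    intro x
    rw [torusPoly_sum, Fintype.prod_prod_type]
    have h3 : ∀ I : Fin k → Fin 3, (∏ j, t j (I j)) * UnitAddTorus.mFourier (ex k (nI I)) x =
        (∏ j : Fin k, (fourier 2 (x (j, true)) : ℂ)) *
          ∏ j, (t j (I j) * fourier ((I j : ℕ) : ℤ) (x (j, false))) := by
      intro I
      have h4 : UnitAddTorus.mFourier (ex k (nI I)) x =
          ∏ y : Fin k × Bool, (fourier (ex k (nI I) y) (x y) : ℂ) := rfl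
      rw [h4, Fintype.prod_prod_type]
      simp only [Fintype.prod_bool, ex_nI_true, ex_nI_false]
      rw [Finset.prod_mul_distrib, Finset.prod_mul_distrib]
      ring
    simp_rw [h3]
    rw [← Finset.mul_sum, ← Fintype.prod_sum (fun (j : Fin k) (i : Fin 3) =>
      t j i * (fourier ((i : ℕ) : ℤ) (x (j, false)) : ℂ)), norm_mul, norm_prod, norm_prod]
    simp only [norm_fourier_int, Finset.prod_const_one, one_mul, Fintype.prod_bool, if_true]
    simp
  simp_rw [h2]
  have h5 : ∫ x : UnitAddTorus (Fin k × Bool), ∏ y : Fin k × Bool, (if y.2 then (1 : ℝ) else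
      ‖∑ i : Fin 3, t y.1 i * fourier (i : ℤ) (x y)‖) =
      ∏ y : Fin k × Bool, ∫ θ : UnitAddCircle, (if y.2 then (1 : ℝ) else
      ‖∑ i : Fin 3, t y.1 i * fourier (i : ℤ) θ‖) :=
    integral_fintype_prod_volume_eq_prod (fun (y : Fin k × Bool) (θ : UnitAddCircle) =>
      (if y.2 then (1 : ℝ) else ‖∑ i : Fin 3, t y.1 i * fourier (i : ℤ) θ‖))
  rw [h5, Fintype.prod_prod_type]
  apply le_of_eq
  refine Finset.prod_congr rfl fun j _ => ?_
  rw [Fintype.prod_bool]
  simp [N1, measureReal_def]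

end

end HB
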