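import Pool.Agent.Helper821.HB.Embed

open MeasureTheory Filter Topology
open scoped ComplexConjugate

noncomputable section

namespace HB

/-- the test functions -/
def hT {k m : ℕ} (Φ : Fin k → UnitAddCircle → ℂ) (y : Fin (k + m) × Bool) (θ : UnitAddCircle) : ℂ :=
  Fin.addCases (motive := fun _ => ℂ) (fun i => if y.2 then fourier (-2) θ else Φ i θ) (fun _ => 1) y.1

lemma hT_left {k m : ℕ} (Φ : Fin k → UnitAddCircle → ℂ) (i : Fin k) (b : Bool)
    (θ : UnitAddCircle) : hT (m := m) Φ (Fin.castAdd m i, b) θ = if b then fourier (-2) θ else Φ i θ := by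
  unfold hT; simp

lemma hT_right {k m : ℕ} (Φ : Fin k → UnitAddCircle → ℂ) (i : Fin m) (b : Bool)
    (θ : UnitAddCircle) : hT Φ (Fin.natAdd k i, b) θ = 1 := by
  unfold hT; simp

lemma measurable_hT {k m : ℕ} (Φ : Fin k → UnitAddCircle → ℂ) (hΦ : ∀ j, Measurable (Φ j))
    (y : Fin (k + m) × Bool) : Measurable (hT Φ y) := by
  obtain ⟨j, b⟩ := y
  refine Fin.addCases (fun i => ?_) (fun i => ?_) j
  · have : hT (m := m) Φ (Fin.castAdd m i, b) = fun θ => if b then fourier (-2) θ else Φ i θ := by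
      ext θ; exact hT_left Φ i b θ
    rw [this]
    cases b
    · simpa using hΦ i
    · simpa using (continuous_fourier (-2)).measurable
  · have : hT Φ (Fin.natAdd k i, b) = fun _ => 1 := by
      ext θ; exact hT_right Φ i b θ
    rw [this]; exact measurable_const

/-- the weight -/
def wt {k m : ℕ} (Φ : Fin k → UnitAddCircle → ℂ) (n : ℕ+) : ℂ :=
  ∏ y : Fin (k + m) × Bool, ∫ θ : UnitAddCircle, (fourier (ex (k + m) n y) θ : ℂ) * hT Φ y θ

lemma fourier_mul' (a b : ℤ) (θ : UnitAddCircle) :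
    (fourier a θ : ℂ) * fourier b θ = fourier (a + b) θ := by
  rw [fourier_add]

lemma wt_eq {k m : ℕ} (Φ : Fin k → UnitAddCircle → ℂ) (n : ℕ+) :
    wt (m := m) Φ n =
      (∏ i : Fin k, ((if (vv n (i, false) : ℤ) + vv n (i, true) + (-2) = 0 then (1 : ℂ) else 0) *
        ∫ θ : UnitAddCircle, (fourier (vv n (i, false) : ℤ) θ : ℂ) * Φ i θ)) *
      ∏ i : Fin m, ((if (vv n (k + i, false) : ℤ) + vv n (k + i, true) = 0 then (1 : ℂ) else 0) *
        (if (vv n (k + i, false) : ℤ) = 0 then 1 else 0)) := by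
  unfold wt
  rw [Fintype.prod_prod_type, Fin.prod_univ_add]
  congr 1
  · refine Finset.prod_congr rfl fun i _ => ?_
    rw [Fintype.prod_bool]
    simp only [hT_left, if_true]
    simp only [Bool.false_eq_true, if_false, fourier_mul', integral_fourier]
    simp only [ex, if_true, Fin.val_castAdd]
    simp only [Bool.false_eq_true, if_false]
  · refine Finset.prod_congr rfl fun i _ => ?_
    rw [Fintype.prod_bool]
    simp only [hT_right, mul_one, integral_fourier]
    simp only [ex, if_true, Fin.val_natAdd]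
    simp only [Bool.false_eq_true, if_false]

lemma wt_nI {k m : ℕ} (Φ : Fin k → UnitAddCircle → ℂ) (I : Fin k → Fin 3) :
    wt (m := m) Φ (nI I) = ∏ i : Fin k, ∫ θ : UnitAddCircle, (fourier ((I i : ℕ) : ℤ) θ : ℂ) * Φ i θ := by
  rw [wt_eq]
  have h2 : ∀ i : Fin m, ((if (vv (nI I) (k + i, false) : ℤ) + vv (nI I) (k + i, true) = 0
      then (1 : ℂ) else 0) * (if (vv (nI I) (k + i, false) : ℤ) = 0 then 1 else 0)) = 1 := by
    intro i
    rw [vv_nI_ge I (k + i, false) (Nat.le_add_right _ _), vv_nI_ge I (k + i, true)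
      (Nat.le_add_right _ _)]
    simp
  rw [Finset.prod_congr rfl fun i _ => h2 i, Finset.prod_const_one, mul_one]
  refine Finset.prod_congr rfl fun i _ => ?_
  have h3 := vv_nI_lt I (i, false)
  have h4 := vv_nI_lt I (i, true)
  simp only [upx, cI, if_true] at h3 h4
  simp only [Bool.false_eq_true, if_false] at h3
  rw [h3, h4]
  have h5 : ((I i : ℕ) : ℤ) + ((2 - (I i : ℕ) : ℕ) : ℤ) + (-2) = 0 := by
    have := (I i).2
    omega
  rw [if_pos h5, one_mul]

lemma wt_eq_zero {k m : ℕ} (Φ : Fin k → UnitAddCircle → ℂ) (n : ℕ+) (hn : Bd (k + m) n)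
    (hne : ∀ I : Fin k → Fin 3, n ≠ nI I) : wt (m := m) Φ n = 0 := by
  by_contra hcon
  rw [wt_eq] at hcon
  have h1 := left_ne_zero_of_mul hcon
  have h2 := right_ne_zero_of_mul hcon
  rw [Finset.prod_ne_zero_iff] at h1 h2
  have h1' : ∀ i : Fin k, vv n (i, false) + vv n (i, true) = 2 := by
    intro i
    have h := left_ne_zero_of_mul (h1 i (Finset.mem_univ i))
    by_contra hc
    apply h
    rw [if_neg]
    omega
  have h2' : ∀ i : Fin m, ∀ b, vv n (k + i, b) = 0 := by
    intro i b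
    have h := left_ne_zero_of_mul (h2 i (Finset.mem_univ i))
    have h3 : (vv n (k + i, false) : ℤ) + vv n (k + i, true) = 0 := by
      by_contra hc
      apply h
      rw [if_neg hc]
    cases b <;> omega
  apply hne (fun i => ⟨vv n (i, false), by have := h1' i; omega⟩)
  apply eq_of_vv
  rintro ⟨j, b⟩
  by_cases hj : j < k
  · have h4 := vv_nI_lt (fun i : Fin k => (⟨vv n (i, false), by have := h1' i; omega⟩ : Fin 3))
      (⟨j, hj⟩, b)
    simp only [upx] at h4
    rw [h4]
    have h5 := h1' ⟨j, hj⟩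
    simp only [cI]
    simp only at h5
    cases b
    · simp
    · simp only [if_true]
      omega
  · rw [vv_nI_ge _ (j, b) (not_lt.1 hj)]
    by_cases hjm : j < k + m
    · have := h2' ⟨j - k, by omega⟩ b
      simp only at this
      rwa [show k + (j - k) = j by omega] at this
    · exact hn (j, b) (not_lt.1 hjm)

section
variable {E : Type*} [NormedAddCommGroup E] [NormedSpace ℂ E] {ι : (ℕ+ →₀ ℂ) →ₗ[ℂ] E}

/-- the key functional bound -/
lemma key_bound (h : IsHardyOne E ι) {k : ℕ} (ψ : Fin k → V3) (D : Fin k → ℝ)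
    (hψ : ∀ j, Adm (ψ j) (D j)) (a : ℕ+ →₀ ℂ) :
    ‖∑ I : Fin k → Fin 3, (∏ j, ψ j (I j)) * a (nI I)‖ ≤ (∏ j, D j) * ‖ι a‖ := by
  classical
  choose Φ hΦm hΦb hΦi using hψ
  obtain ⟨L, hkL, hL⟩ := exists_bound a k
  obtain ⟨m, rfl⟩ := Nat.exists_eq_add_of_le hkL
  set H : UnitAddTorus (Fin (k + m) × Bool) → ℂ := fun x => ∏ y, hT Φ y (x y) with hH
  have hHm : Measurable H := Finset.measurable_prod _ fun y _ =>
    (measurable_hT Φ hΦm y).comp (measurable_pi_apply y)
  have hD : ∀ j, 0 ≤ D j := fun j => (norm_nonneg _).trans (hΦb j 0)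
  have hHb : ∀ x, ‖H x‖ ≤ ∏ j, D j := by
    intro x
    rw [hH]
    dsimp only
    rw [norm_prod, Fintype.prod_prod_type, Fin.prod_univ_add]
    have e2 : ∏ i : Fin m, ∏ b : Bool, ‖hT Φ (Fin.natAdd k i, b) (x (Fin.natAdd k i, b))‖ = 1 := by
      refine Finset.prod_eq_one fun i _ => Finset.prod_eq_one fun b _ => ?_
      rw [hT_right, norm_one]
    rw [e2, mul_one]
    refine Finset.prod_le_prod (fun i _ => Finset.prod_nonneg fun b _ => norm_nonneg _) fun i _ => ?_
    rw [Fintype.prod_bool, hT_left, hT_left]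
    simp only [if_true, norm_fourier_int, one_mul]
    simpa using hΦb i _
  -- the integral of the product
  have hprod : ∀ n : ℕ+, ∫ x : UnitAddTorus (Fin (k + m) × Bool),
      UnitAddTorus.mFourier (ex (k + m) n) x * H x = wt (m := m) Φ n := by
    intro n
    have e1 : ∀ x : UnitAddTorus (Fin (k + m) × Bool),
        UnitAddTorus.mFourier (ex (k + m) n) x * H x =
        ∏ y, ((fourier (ex (k + m) n y) (x y) : ℂ) * hT Φ y (x y)) := by
      intro x
      rw [Finset.prod_mul_distrib]; rfl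
    simp_rw [e1]
    exact integral_fintype_prod_volume_eq_prod (fun (y : Fin (k + m) × Bool) (θ : UnitAddCircle) =>
      (fourier (ex (k + m) n y) θ : ℂ) * hT Φ y θ)
  have hint : ∀ n : ℕ+, Integrable (fun x : UnitAddTorus (Fin (k + m) × Bool) =>
      UnitAddTorus.mFourier (ex (k + m) n) x * H x) := by
    intro n
    refine Integrable.of_bound ((map_continuous (UnitAddTorus.mFourier
      (ex (k + m) n))).measurable.mul hHm).aestronglyMeasurable (∏ j, D j)
      (Eventually.of_forall fun x => ?_)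
    rw [norm_mul]
    have e1 : ‖UnitAddTorus.mFourier (ex (k + m) n) x‖ = 1 := by
      have : UnitAddTorus.mFourier (ex (k + m) n) x =
        ∏ y, (fourier (ex (k + m) n y) (x y) : ℂ) := rfl
      rw [this, norm_prod]
      exact Finset.prod_eq_one fun y _ => norm_fourier_int _ _
    rw [e1, one_mul]
    exact hHb x
  have hmain : ∫ x, torusPoly (ex (k + m)) a x * H x = ∑ n ∈ a.support, a n * wt (m := m) Φ n := by
    simp_rw [torusPoly_apply, Finset.sum_mul, mul_assoc]
    rw [integral_finsetSum _ (fun n _ => (hint n).const_mul _)]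
    exact Finset.sum_congr rfl fun n _ => by rw [integral_const_mul, hprod]
  have hbound : ‖∫ x, torusPoly (ex (k + m)) a x * H x‖ ≤ (∏ j, D j) * ‖ι a‖ := by
    rw [norm_eq_integral h hL, ← integral_const_mul]
    apply norm_integral_le_of_norm_le
    · apply Integrable.const_mul
      exact (map_continuous (torusPoly (ex (k + m)) a)).norm.integrable_of_hasCompactSupport
        (HasCompactSupport.of_compactSpace _)
    · refine Eventually.of_forall fun x => ?_
      rw [norm_mul, mul_comm]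
      exact mul_le_mul_of_nonneg_right (hHb x) (norm_nonneg _)
  have hval : ∑ n ∈ a.support, a n * wt (m := m) Φ n =
      ∑ I : Fin k → Fin 3, (∏ j, ψ j (I j)) * a (nI I) := by
    have e1 : ∀ n ∈ a.support, wt (m := m) Φ n =
        ∑ I : Fin k → Fin 3, if n = nI I then ∏ j, ψ j (I j) else 0 := by
      intro n hn
      by_cases hex : ∃ I : Fin k → Fin 3, n = nI I
      · obtain ⟨I0, rfl⟩ := hex
        rw [wt_nI]
        have : ∀ I : Fin k → Fin 3, (nI I0 = nI I) ↔ I0 = I := fun I => nI_inj.eq_iff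
        simp only [this, Finset.sum_ite_eq, Finset.mem_univ, if_true]
        exact Finset.prod_congr rfl fun i _ => (hΦi i (I0 i)).symm
      · push Not at hex
        rw [wt_eq_zero Φ n (hL n hn) hex]
        exact (Finset.sum_eq_zero fun I _ => if_neg (hex I)).symm
    rw [Finset.sum_congr rfl fun n hn => by rw [e1 n hn]]
    simp_rw [Finset.mul_sum]
    rw [Finset.sum_comm]
    refine Finset.sum_congr rfl fun I _ => ?_
    simp only [mul_ite, mul_zero]
    rw [Finset.sum_ite_eq']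
    by_cases hI : nI I ∈ a.support
    · rw [if_pos hI]; ring
    · rw [if_neg hI, Finsupp.notMem_support_iff.1 hI]; ring
  rw [← hval, ← hmain]
  exact hbound

lemma coef_bound (h : IsHardyOne E ι) {k : ℕ} (I : Fin k → Fin 3) (a : ℕ+ →₀ ℂ) :
    ‖a (nI I)‖ ≤ 1 * ‖ι a‖ := by
  classical
  have h1 := key_bound h (fun j => (Pi.single (I j) 1 : V3)) (fun _ => 1)
    (fun j => adm_delta (I j)) a
  have h2 : ∑ I' : Fin k → Fin 3, (∏ j, (Pi.single (I j) (1 : ℂ) : V3) (I' j)) * a (nI I') =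
      a (nI I) := by
    rw [Finset.sum_eq_single I]
    · simp
    · intro I' _ hI'
      obtain ⟨j, hj⟩ := Function.ne_iff.1 hI'
      rw [Finset.prod_eq_zero (Finset.mem_univ j) (Pi.single_eq_of_ne hj _), zero_mul]
    · simp
  rw [h2] at h1
  simpa using h1

/-- coefficient functionals on `E` -/
def coefL (ι : (ℕ+ →₀ ℂ) →ₗ[ℂ] E) {k : ℕ} (I : Fin k → Fin 3) : E →L[ℂ] ℂ :=
  (Finsupp.lapply (nI I) : (ℕ+ →₀ ℂ) →ₗ[ℂ] ℂ).extendOfNorm ι

lemma coefL_apply (h : IsHardyOne E ι) {k : ℕ} (I : Fin k → Fin 3) (a : ℕ+ →₀ ℂ) :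
    coefL ι I (ι a) = a (nI I) :=
  LinearMap.extendOfNorm_eq h.dense ⟨1, fun a => coef_bound h I a⟩ a

lemma tens_coef_apply (h : IsHardyOne E ι) {k : ℕ} (ψ : Fin k → V3) (a : ℕ+ →₀ ℂ) :
    tens (coefL ι) ψ (ι a) = ∑ I : Fin k → Fin 3, (∏ j, ψ j (I j)) * a (nI I) := by
  rw [tens_apply, sum_apply]
  refine Finset.sum_congr rfl fun I _ => ?_
  rw [smul_apply, coefL_apply h, smul_eq_mul]

lemma norm_tens_coef_le (h : IsHardyOne E ι) {k : ℕ} (ψ : Fin k → V3) (D : Fin k → ℝ)
    (hψ : ∀ j, Adm (ψ j) (D j)) : ‖tens (coefL ι) ψ‖ ≤ ∏ j, D j := by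
  have hD : ∀ j, 0 ≤ D j := fun j => by
    obtain ⟨Φ, -, hb, -⟩ := hψ j
    exact (norm_nonneg _).trans (hb 0)
  refine ContinuousLinearMap.opNorm_le_bound _ (Finset.prod_nonneg fun j _ => hD j) fun x => ?_
  refine isClosed_property h.dense (isClosed_le
    (tens (coefL ι) ψ).continuous.norm (continuous_const.mul continuous_norm)) (fun a => ?_) x
  rw [tens_coef_apply h]
  exact key_bound h ψ D hψ a

lemma tens_dual (h : IsHardyOne E ι) {k : ℕ} (t ψ : Fin k → V3) :
    tens (coefL ι) ψ (tens (fun I => ι (Finsupp.single (nI I) 1)) t) = ∏ j, dot (ψ j) (t j) := by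
  classical
  have h1 : tens (fun I => ι (Finsupp.single (nI I) 1)) t =
      ι (∑ I : Fin k → Fin 3, (∏ j, t j (I j)) • Finsupp.single (nI I) 1) := by
    rw [tens_apply, map_sum]
    exact Finset.sum_congr rfl fun I _ => (map_smul _ _ _).symm
  rw [h1, tens_coef_apply h]
  have h2 : ∀ I : Fin k → Fin 3, (∑ I' : Fin k → Fin 3,
      (∏ j, t j (I' j)) • (Finsupp.single (nI I') 1 : ℕ+ →₀ ℂ)) (nI I) = ∏ j, t j (I j) := by
    intro I
    rw [Finsupp.finsetSum_apply, Finset.sum_eq_single I]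
    · simp
    · intro I' _ hI'
      have : nI I' ≠ nI I := fun h' => hI' (nI_inj h')
      simp [this]
    · simp
  simp_rw [h2, ← Finset.prod_mul_distrib]
  unfold dot
  rw [Fintype.prod_sum]

/-- There is no unconditional basis. -/
theorem no_unconditional_basis (h : IsHardyOne E ι) (e : ℕ → E)
    (f : ℕ → E →ₗ[ℂ] ℂ) (K : ℝ) (hK0 : 0 ≤ K)
    (hexp : ∀ x, Tendsto (fun N => ∑ n ∈ Finset.range N, f n x • e n) atTop (𝓝 x))
    (hK : ∀ (S : Finset ℕ) (x : E) (Ψ : E →L[ℂ] ℂ),
        ∑ n ∈ S, ‖f n x‖ * ‖Ψ (e n)‖ ≤ K * ‖x‖ * ‖Ψ‖) : False := by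
  refine no_system e f K hK0 hexp hK fun k => ?_
  exact ⟨tens (fun I => ι (Finsupp.single (nI I) 1)), tens (coefL ι), fun t => norm_J_le h t,
    fun ψ D hψ => norm_tens_coef_le h ψ D hψ, fun t ψ => tens_dual h t ψ⟩

end

end HB
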