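import Pool.Agent.Helper821.HB.NormF

open MeasureTheory Filter Topology
open scoped ComplexConjugate

noncomputable section

namespace HB

/-- the `𝓗¹` norm of a Dirichlet polynomial -/
def hn (a : ℕ+ →₀ ℂ) : ℝ := Classical.choose (exists_lim a)

lemma hn_spec (a : ℕ+ →₀ ℂ) : Tendsto (vMean a) atTop (𝓝 (hn a)) :=
  Classical.choose_spec (exists_lim a)

lemma dirPoly_add (a b : ℕ+ →₀ ℂ) (t : ℝ) : dirPoly (a + b) t = dirPoly a t + dirPoly b t := by
  unfold dirPoly
  exact Finsupp.sum_add_index' (fun _ => by simp) (fun _ _ _ => by ring)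

lemma dirPoly_smul (c : ℂ) (a : ℕ+ →₀ ℂ) (t : ℝ) : dirPoly (c • a) t = c * dirPoly a t := by
  unfold dirPoly
  rw [Finsupp.sum_smul_index (fun _ => by simp), Finsupp.mul_sum]
  exact Finsupp.sum_congr fun _ _ => by ring

lemma continuous_dirPoly (a : ℕ+ →₀ ℂ) : Continuous (dirPoly a) := by
  unfold dirPoly Finsupp.sum
  refine continuous_finsetSum _ fun n _ => continuous_const.mul ?_
  have hn0 : ((n : ℕ) : ℂ) ≠ 0 := by exact_mod_cast n.ne_zero
  exact ((Complex.continuous_ofReal.mul continuous_const).neg).const_cpow (Or.inl hn0)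

lemma hn_add_le (a b : ℕ+ →₀ ℂ) : hn (a + b) ≤ hn a + hn b := by
  refine le_of_tendsto_of_tendsto (hn_spec (a + b)) ((hn_spec a).add (hn_spec b)) ?_
  filter_upwards [eventually_gt_atTop (0 : ℝ)] with T hT
  unfold vMean
  rw [← mul_add, ← intervalIntegral.integral_add
    ((continuous_dirPoly a).norm.intervalIntegrable _ _)
    ((continuous_dirPoly b).norm.intervalIntegrable _ _)]
  refine mul_le_mul_of_nonneg_left ?_ (by positivity)
  refine intervalIntegral.integral_mono_on (by linarith)
    ((continuous_dirPoly (a + b)).norm.intervalIntegrable _ _)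
    (((continuous_dirPoly a).norm.add (continuous_dirPoly b).norm).intervalIntegrable _ _)
    fun t _ => ?_
  rw [dirPoly_add]
  exact norm_add_le _ _

lemma hn_smul (c : ℂ) (a : ℕ+ →₀ ℂ) : hn (c • a) = ‖c‖ * hn a := by
  refine tendsto_nhds_unique (hn_spec (c • a)) ?_
  refine ((hn_spec a).const_mul ‖c‖).congr fun T => ?_
  unfold vMean
  simp_rw [dirPoly_smul, norm_mul]
  rw [intervalIntegral.integral_const_mul]
  ring

/-- the `𝓗¹` norm as a seminorm -/
def hsn : Seminorm ℂ (ℕ+ →₀ ℂ) := Seminorm.of hn hn_add_le hn_smul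

/-- Dirichlet polynomials with the `𝓗¹` norm -/
def DP : Type := ℕ+ →₀ ℂ

instance : AddCommGroup DP := inferInstanceAs (AddCommGroup (ℕ+ →₀ ℂ))
instance : Module ℂ DP := inferInstanceAs (Module ℂ (ℕ+ →₀ ℂ))

instance : SeminormedAddCommGroup DP :=
  AddGroupSeminorm.toSeminormedAddCommGroup (E := DP) hsn.toAddGroupSeminorm

lemma norm_DP (a : DP) : ‖a‖ = hn a := rfl

instance : NormedSpace ℂ DP where
  norm_smul_le c a := by
    rw [norm_DP, norm_DP]
    exact (hn_smul c a).le

/-- the embedding into the completion -/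
def emb : (ℕ+ →₀ ℂ) →ₗ[ℂ] UniformSpace.Completion DP where
  toFun := fun a => ((show DP from a : DP) : UniformSpace.Completion DP)
  map_add' := fun a b => UniformSpace.Completion.coe_add (show DP from a) (show DP from b)
  map_smul' := fun c a => UniformSpace.Completion.coe_smul c (show DP from a)

theorem exists_model : IsHardyOne (UniformSpace.Completion DP) emb where
  complete := inferInstance
  dense := UniformSpace.Completion.denseRange_coe (α := DP)
  norm_eq := by
    intro a
    have h1 : ‖emb a‖ = hn a := UniformSpace.Completion.norm_coe (E := DP) a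
    rw [h1]
    exact hn_spec a

end HB
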