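import Mathlib

open MeasureTheory Filter Topology
open scoped ComplexConjugate

noncomputable section

namespace HB

variable {κ : Type} [Fintype κ]

/-- the line in direction `l` -/
def lin (l : κ → ℝ) (t : ℝ) : UnitAddTorus κ := fun i => ((l i * t : ℝ) : UnitAddCircle)

omit [Fintype κ] in
lemma continuous_lin (l : κ → ℝ) : Continuous (lin l) := by
  unfold lin
  exact continuous_pi fun i => (AddCircle.continuous_mk' (1 : ℝ)).comp (continuous_const.mul continuous_id)

/-- time average -/
def avg (g : ℝ → ℂ) (T : ℝ) : ℂ := (1 / (2 * T) : ℝ) • ∫ t in (-T)..T, g t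

lemma mFourier_lin (l : κ → ℝ) (m : κ → ℤ) (t : ℝ) :
    UnitAddTorus.mFourier m (lin l t) =
      Complex.exp (((2 * Real.pi * (∑ i, m i * l i) : ℝ) : ℂ) * Complex.I * t) := by
  have h1 : UnitAddTorus.mFourier m (lin l t) = ∏ i, (fourier (m i) (lin l t i) : ℂ) := rfl
  rw [h1]
  have h2 : ∀ i, (fourier (m i) (lin l t i) : ℂ) =
      Complex.exp (2 * Real.pi * Complex.I * (m i) * (l i * t)) := by
    intro i
    unfold lin
    rw [fourier_coe_apply]; congr 1; push_cast; ring
  simp_rw [h2]
  rw [← Complex.exp_sum]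
  congr 1
  push_cast
  rw [Finset.mul_sum, Finset.sum_mul, Finset.sum_mul]
  exact Finset.sum_congr rfl fun i _ => by ring

lemma avg_const (c : ℂ) {T : ℝ} (hT : 0 < T) : avg (fun _ => c) T = c := by
  unfold avg
  rw [intervalIntegral.integral_const, smul_smul]
  have : 1 / (2 * T) * (T - -T) = 1 := by field_simp; ring
  rw [this, one_smul]

lemma avg_exp (s : ℝ) (hs : s ≠ 0) :
    Tendsto (avg (fun t : ℝ => Complex.exp ((s : ℂ) * Complex.I * t))) atTop (𝓝 0) := by
  have h1 : ∀ᶠ T : ℝ in atTop, ‖avg (fun t : ℝ => Complex.exp ((s : ℂ) * Complex.I * t)) T‖ ≤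
      (1 / |s|) * T⁻¹ := by
    filter_upwards [eventually_gt_atTop (0 : ℝ)] with T hT
    unfold avg
    rw [integral_exp_mul_complex (mul_ne_zero (by exact_mod_cast hs) Complex.I_ne_zero)]
    have h0 : ‖(s : ℂ) * Complex.I‖ = |s| := by
      rw [norm_mul, Complex.norm_I, mul_one, Complex.norm_real, Real.norm_eq_abs]
    rw [norm_smul, norm_div (_ - _), h0, Real.norm_of_nonneg (by positivity)]
    have h2 : ‖Complex.exp ((s : ℂ) * Complex.I * T) -
        Complex.exp ((s : ℂ) * Complex.I * ((-T : ℝ) : ℂ))‖ ≤ 2 := by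
      refine (norm_sub_le _ _).trans ?_
      have e1 : ‖Complex.exp ((s : ℂ) * Complex.I * T)‖ = 1 := by
        rw [show (s : ℂ) * Complex.I * T = ((s * T : ℝ) : ℂ) * Complex.I by push_cast; ring,
          Complex.norm_exp_ofReal_mul_I]
      have e2 : ‖Complex.exp ((s : ℂ) * Complex.I * ((-T : ℝ) : ℂ))‖ = 1 := by
        rw [show (s : ℂ) * Complex.I * ((-T : ℝ) : ℂ) = ((s * (-T) : ℝ) : ℂ) * Complex.I by
          push_cast; ring, Complex.norm_exp_ofReal_mul_I]
      rw [e1, e2]; norm_num
    have hs' : 0 < |s| := abs_pos.2 hs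
    calc 1 / (2 * T) * (‖Complex.exp ((s : ℂ) * Complex.I * T) -
        Complex.exp ((s : ℂ) * Complex.I * ((-T : ℝ) : ℂ))‖ / |s|) ≤ 1 / (2 * T) * (2 / |s|) := by
          gcongr
      _ = (1 / |s|) * T⁻¹ := by field_simp
  refine squeeze_zero_norm' h1 ?_
  have := (tendsto_inv_atTop_zero (𝕜 := ℝ)).const_mul (1 / |s|)
  simpa using this

lemma integral_fourier' (n : ℤ) :
    ∫ θ : UnitAddCircle, (fourier n θ : ℂ) = if n = 0 then 1 else 0 := by
  by_cases hn : n = 0
  · subst hn
    simp [measureReal_def]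
  · rw [if_neg hn]
    apply integral_eq_zero_of_add_right_eq_neg (μ := (volume : Measure UnitAddCircle))
      (g := ((1 / 2 / (n : ℝ) : ℝ) : UnitAddCircle))
    intro θ
    have := fourier_add_half_inv_index (T := (1 : ℝ)) hn Fact.out θ
    convert this using 3

lemma integral_mFourier (m : κ → ℤ) :
    ∫ x : UnitAddTorus κ, UnitAddTorus.mFourier m x = if m = 0 then 1 else 0 := by
  have h1 : ∀ x : UnitAddTorus κ, UnitAddTorus.mFourier m x = ∏ i, (fourier (m i) (x i) : ℂ) :=
    fun x => rfl
  simp_rw [h1]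
  have h2 : ∫ x : UnitAddTorus κ, ∏ i, (fourier (m i) (x i) : ℂ) =
      ∏ i, ∫ θ : UnitAddCircle, (fourier (m i) θ : ℂ) :=
    integral_fintype_prod_volume_eq_prod (fun i (θ : UnitAddCircle) => (fourier (m i) θ : ℂ))
  rw [h2]
  simp_rw [integral_fourier']
  by_cases hm : m = 0
  · subst hm; simp
  · rw [if_neg hm]
    obtain ⟨i, hi⟩ := Function.ne_iff.1 hm
    exact Finset.prod_eq_zero (Finset.mem_univ i) (if_neg hi)

lemma norm_avg_le (g : ℝ → ℂ) (B : ℝ) (hB : ∀ t, ‖g t‖ ≤ B) {T : ℝ} (hT : 0 < T) :
    ‖avg g T‖ ≤ B := by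
  unfold avg
  rw [norm_smul, Real.norm_of_nonneg (by positivity)]
  have h1 : ‖∫ t in (-T)..T, g t‖ ≤ B * |T - -T| :=
    intervalIntegral.norm_integral_le_of_norm_le_const fun t _ => hB t
  rw [abs_of_pos (by linarith)] at h1
  calc 1 / (2 * T) * ‖∫ t in (-T)..T, g t‖ ≤ 1 / (2 * T) * (B * (T - -T)) := by gcongr
    _ = B := by field_simp; ring

instance instProbCircle : IsProbabilityMeasure (volume : Measure UnitAddCircle) := ⟨by simp⟩

instance instProbTorus : IsProbabilityMeasure (volume : Measure (UnitAddTorus κ)) :=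
  inferInstanceAs (IsProbabilityMeasure (Measure.pi fun _ : κ => (volume : Measure UnitAddCircle)))

lemma probReal_univ' : (volume : Measure (UnitAddTorus κ)).real Set.univ = 1 := by
  simp [measureReal_def]

/-- Kronecker-Weyl. -/
theorem kronecker_weyl (l : κ → ℝ) (hl : ∀ m : κ → ℤ, ∑ i, m i * l i = 0 → m = 0)
    (g : C(UnitAddTorus κ, ℂ)) :
    Tendsto (avg (fun t => g (lin l t))) atTop (𝓝 (∫ x, g x)) := by
  have hint : ∀ (g : C(UnitAddTorus κ, ℂ)) (a b : ℝ),
      IntervalIntegrable (fun t => g (lin l t)) volume a b := fun g a b =>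
    ((map_continuous g).comp (continuous_lin l)).intervalIntegrable a b
  have hintT : ∀ (g : C(UnitAddTorus κ, ℂ)), Integrable (fun x => g x) volume := fun g =>
    (map_continuous g).integrable_of_hasCompactSupport (HasCompactSupport.of_compactSpace _)
  let S : Submodule ℂ C(UnitAddTorus κ, ℂ) :=
    { carrier := {g | Tendsto (avg (fun t => g (lin l t))) atTop (𝓝 (∫ x, g x))}
      add_mem' := by
        intro a b ha hb
        have h1 := ha.add hb
        have h2 : ∫ x, (a + b) x = (∫ x, a x) + ∫ x, b x := integral_add (hintT a) (hintT b)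
        show Tendsto _ _ (𝓝 (∫ x, (a + b) x))
        rw [h2]
        refine h1.congr fun T => ?_
        unfold avg
        rw [← smul_add, ← intervalIntegral.integral_add (hint a _ _) (hint b _ _)]
        rfl
      zero_mem' := by
        show Tendsto (avg (fun _ => (0 : ℂ))) atTop (𝓝 (∫ _x : UnitAddTorus κ, (0 : ℂ)))
        simp only [integral_zero]
        refine tendsto_const_nhds.congr fun T => ?_
        unfold avg; simp
      smul_mem' := by
        intro c a ha
        have h1 := ha.const_mul c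
        have h2 : ∫ x, (c • a) x = c * ∫ x, a x := integral_const_mul c _
        show Tendsto _ _ (𝓝 (∫ x, (c • a) x))
        rw [h2]
        refine h1.congr fun T => ?_
        unfold avg
        rw [mul_smul_comm, ← intervalIntegral.integral_const_mul]
        rfl }
  have hchar : ∀ m : κ → ℤ, UnitAddTorus.mFourier m ∈ S := by
    intro m
    show Tendsto (avg (fun t => UnitAddTorus.mFourier m (lin l t))) atTop
      (𝓝 (∫ x, UnitAddTorus.mFourier m x))
    rw [integral_mFourier]
    by_cases hm : m = 0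
    · rw [if_pos hm]
      subst hm
      have : (fun t => UnitAddTorus.mFourier (0 : κ → ℤ) (lin l t)) = fun _ => (1 : ℂ) := by
        ext t; rw [UnitAddTorus.mFourier_zero]; rfl
      rw [this]
      refine tendsto_const_nhds.congr' ?_
      filter_upwards [eventually_gt_atTop (0 : ℝ)] with T hT
      exact (avg_const 1 hT).symm
    · rw [if_neg hm]
      simp_rw [mFourier_lin]
      refine avg_exp _ ?_
      refine mul_ne_zero (by positivity) fun h => hm (hl m h)
  have hclosed : IsClosed (S : Set C(UnitAddTorus κ, ℂ)) := by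
    rw [← isSeqClosed_iff_isClosed]
    intro u g hu hug
    show Tendsto (avg (fun t => g (lin l t))) atTop (𝓝 (∫ x, g x))
    rw [Metric.tendsto_atTop]
    intro ε hε
    obtain ⟨N, hN⟩ := (Metric.tendsto_atTop.1 hug) (ε / 4) (by positivity)
    have hn := hN N le_rfl
    obtain ⟨T0, hT0⟩ := (Metric.tendsto_atTop.1 (hu N)) (ε / 4) (by positivity)
    refine ⟨max T0 1, fun T hT => ?_⟩
    have hTpos : 0 < T := lt_of_lt_of_le zero_lt_one ((le_max_right _ _).trans hT)
    have h1 := hT0 T ((le_max_left _ _).trans hT)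
    have hdiff : ∀ x, ‖g x - u N x‖ ≤ ε / 4 := by
      intro x
      have := ContinuousMap.dist_apply_le_dist (f := u N) (g := g) x
      rw [dist_comm, dist_eq_norm] at this
      exact this.trans hn.le
    have h2 : ‖avg (fun t => g (lin l t)) T - avg (fun t => u N (lin l t)) T‖ ≤ ε / 4 := by
      have : avg (fun t => g (lin l t)) T - avg (fun t => u N (lin l t)) T =
          avg (fun t => g (lin l t) - u N (lin l t)) T := by
        unfold avg
        rw [← smul_sub, ← intervalIntegral.integral_sub (hint g _ _) (hint (u N) _ _)]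
      rw [this]
      exact norm_avg_le _ _ (fun t => hdiff _) hTpos
    have h3 : ‖(∫ x, u N x) - ∫ x, g x‖ ≤ ε / 4 := by
      rw [← integral_sub (hintT _) (hintT _)]
      have h4 : ∀ x, ‖u N x - g x‖ ≤ ε / 4 := fun x => by rw [norm_sub_rev]; exact hdiff x
      have := norm_integral_le_of_norm_le_const (μ := (volume : Measure (UnitAddTorus κ)))
        (Eventually.of_forall h4)
      refine this.trans (le_of_eq ?_)
      rw [probReal_univ', mul_one]
    rw [dist_eq_norm] at h1 ⊢
    calc ‖avg (fun t => g (lin l t)) T - ∫ x, g x‖ =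
        ‖(avg (fun t => g (lin l t)) T - avg (fun t => u N (lin l t)) T) +
          (avg (fun t => u N (lin l t)) T - ∫ x, u N x) + ((∫ x, u N x) - ∫ x, g x)‖ := by
          congr 1; ring
      _ ≤ ε / 4 + ε / 4 + ε / 4 := by
          refine (norm_add_le _ _).trans (add_le_add ((norm_add_le _ _).trans
            (add_le_add h2 h1.le)) h3)
      _ < ε := by linarith
  have htop : S = ⊤ := by
    rw [eq_top_iff, ← UnitAddTorus.span_mFourier_closure_eq_top]
    exact Submodule.topologicalClosure_minimal _ (Submodule.span_le.2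
      (by rintro _ ⟨m, rfl⟩; exact hchar m)) hclosed
  have : g ∈ S := by rw [htop]; trivial
  exact this

end HB
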