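import Pool.Agent.Helper821.HB.Cert

open MeasureTheory Filter Topology
open scoped ComplexConjugate

noncomputable section

namespace HB

lemma dot_smul_left (r : ℂ) (a t : V3) : dot (r • a) t = r * dot a t := by
  simp [dot, Finset.mul_sum, mul_assoc]

lemma dot_zero_left (t : V3) : dot 0 t = 0 := by simp [dot]

namespace Cert

lemma lo_smul_smul (C : Cert) (r s : ℂ) (a b : V3) :
    C.lo (r • a) (s • b) = ‖r‖ * ‖s‖ * C.lo a b := by
  unfold lo; rw [Finset.mul_sum]
  refine Finset.sum_congr rfl fun i _ => ?_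
  rw [dot_smul_left, dot_smul_left, norm_mul, norm_mul]; ring

lemma up_smul_smul (C : Cert) (r s : ℂ) (a b : V3) :
    C.up (r • a) (s • b) = ‖r‖ * ‖s‖ * C.up a b := by
  unfold up; rw [Finset.mul_sum]
  refine Finset.sum_congr rfl fun i _ => ?_
  rw [dot_smul_left, dot_smul_left, norm_mul, norm_mul]; ring

/-- It suffices to check the domination on the unit spheres. -/
lemma le_of_sphere (C : Cert) (h : ∀ p : PP, C.lo p.1.1 p.2.1 ≤ C.up p.1.1 p.2.1) (a b : V3) :
    C.lo a b ≤ C.up a b := by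
  have key : ∀ a : V3, ∃ (r : ℂ) (a' : V3), a = r • a' ∧ ‖a'‖ = 1 := by
    intro a
    by_cases ha : a = 0
    · refine ⟨0, fun _ => 1, by simp [ha], ?_⟩
      rw [pi_norm_const]; simp
    · refine ⟨(‖a‖ : ℂ), (‖a‖ : ℂ)⁻¹ • a, ?_, ?_⟩
      · rw [smul_smul, mul_inv_cancel₀ (by simpa using ha), one_smul]
      · rw [norm_smul, norm_inv, Complex.norm_real, norm_norm, inv_mul_cancel₀ (by simpa using ha)]
  obtain ⟨r, a', rfl, ha'⟩ := key a
  obtain ⟨s, b', rfl, hb'⟩ := key b
  rw [lo_smul_smul, up_smul_smul]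
  have := h ⟨⟨a', by simpa using ha'⟩, ⟨b', by simpa using hb'⟩⟩
  exact mul_le_mul_of_nonneg_left this (by positivity)

end Cert

lemma integral_fourier_ne {n : ℤ} (hn : n ≠ 0) :
    ∫ θ : UnitAddCircle, (fourier n θ : ℂ) = 0 := by
  apply integral_eq_zero_of_add_right_eq_neg (μ := (volume : Measure UnitAddCircle))
    (g := ((1 / 2 / (n : ℝ) : ℝ) : UnitAddCircle))
  intro θ
  have := fourier_add_half_inv_index (T := (1 : ℝ)) hn Fact.out θ
  convert this using 3

lemma integral_fourier (n : ℤ) :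
    ∫ θ : UnitAddCircle, (fourier n θ : ℂ) = if n = 0 then 1 else 0 := by
  by_cases hn : n = 0
  · subst hn
    simp [measureReal_def]
  · rw [if_neg hn, integral_fourier_ne hn]

lemma adm_delta (j : Fin 3) : Adm (Pi.single j 1) 1 := by
  refine ⟨fun θ => fourier (-(j : ℤ)) θ, (map_continuous (fourier _)).measurable, ?_, ?_⟩
  · intro θ; simp [Circle.norm_coe, fourier_apply]
  · intro i
    simp_rw [← fourier_add]
    rw [integral_fourier]
    by_cases h : i = j
    · subst h; simp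
    · rw [Pi.single_eq_of_ne h, if_neg]
      intro h'
      apply h
      ext
      omega

/-- The space of test data. -/
abbrev W := CompactlySupportedContinuousMap PP ℝ × ℝ

/-- The cone used in the Riesz extension theorem. -/
def coneS : PointedCone ℝ W where
  carrier := {w | ∃ C : Cert, (∀ p : PP, w.1 p + C.lo p.1.1 p.2.1 ≤ C.up p.1.1 p.2.1) ∧
    C.upv - C.lov ≤ w.2}
  add_mem' := by
    rintro x y ⟨C, hC, hC'⟩ ⟨D, hD, hD'⟩
    refine ⟨C.add D, fun p => ?_, ?_⟩
    · rw [Cert.lo_add, Cert.up_add]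
      have h1 := hC p
      have h2 := hD p
      show (x.1 + y.1) p + _ ≤ _
      rw [CompactlySupportedContinuousMap.add_apply]
      linarith
    · rw [Cert.upv_add, Cert.lov_add]
      show _ ≤ x.2 + y.2
      linarith
  zero_mem' := ⟨Cert.zero, fun p => by simp, by simp⟩
  smul_mem' := by
    rintro ⟨r, hr⟩ x ⟨C, hC, hC'⟩
    refine ⟨C.smul r hr, fun p => ?_, ?_⟩
    · rw [Cert.lo_smul, Cert.up_smul]
      have h1 := mul_le_mul_of_nonneg_left (hC p) hr
      show r * x.1 p + _ ≤ _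
      linarith
    · rw [Cert.upv_smul, Cert.lov_smul]
      have h1 := mul_le_mul_of_nonneg_left hC' hr
      show _ ≤ r * x.2
      linarith

/-- A certificate whose upper sum is at least `K`. -/
def bigCert (K : ℝ) (hK : 0 ≤ K) : Cert where
  ι := Empty
  fι := inferInstance
  c := fun i => i.elim
  hc := fun i => i.elim
  t := fun i => i.elim
  ψ := fun i => i.elim
  κ := Fin 3 × Fin 3
  fκ := inferInstance
  d := fun _ => K
  hd := fun _ => hK
  t' := fun i => Pi.single i.1 1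
  ψ' := fun i => Pi.single i.2 1
  D := fun _ => 1
  hD := fun i => adm_delta i.2

lemma dot_single (a : V3) (i : Fin 3) : dot a (Pi.single i 1) = a i := by
  unfold dot
  rw [Finset.sum_eq_single i]
  · simp
  · intro j _ hj; rw [Pi.single_eq_of_ne hj]; simp
  · simp

lemma bigCert_up (K : ℝ) (hK : 0 ≤ K) (a b : V3) :
    (bigCert K hK).up a b = ∑ x : Fin 3 × Fin 3, K * (‖a x.1‖ * ‖b x.2‖) := by
  have : (bigCert K hK).up a b = ∑ x : Fin 3 × Fin 3,
      K * (‖dot a (Pi.single x.1 1)‖ * ‖dot b (Pi.single x.2 1)‖) := rfl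
  rw [this]
  exact Finset.sum_congr rfl fun x _ => by rw [dot_single, dot_single]

lemma bigCert_lo (K : ℝ) (hK : 0 ≤ K) (a b : V3) : (bigCert K hK).lo a b = 0 :=
  Finset.sum_eq_zero fun i _ => i.elim

lemma le_bigCert_up (K : ℝ) (hK : 0 ≤ K) (p : PP) : K ≤ (bigCert K hK).up p.1.1 p.2.1 := by
  have h1 : ∀ a : SP, ∃ i : Fin 3, ‖(a : V3) i‖ = 1 := by
    intro a
    have ha : ‖(a : V3)‖ = 1 := by simp
    obtain ⟨i, -, hi⟩ := Finset.exists_mem_eq_sup (Finset.univ : Finset (Fin 3))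
      Finset.univ_nonempty (fun b => ‖(a : V3) b‖₊)
    refine ⟨i, ?_⟩
    have : ‖(a : V3)‖₊ = ‖(a : V3) i‖₊ := by
      rw [Pi.nnnorm_def, hi]
    rw [← ha, ← coe_nnnorm, ← coe_nnnorm, this]
  obtain ⟨i, hi⟩ := h1 p.1
  obtain ⟨j, hj⟩ := h1 p.2
  rw [bigCert_up]
  have h2 : K = K * (‖(p.1 : V3) i‖ * ‖(p.2 : V3) j‖) := by rw [hi, hj]; ring
  calc K = K * (‖(p.1 : V3) i‖ * ‖(p.2 : V3) j‖) := h2
    _ ≤ _ := Finset.single_le_sum
        (f := fun x : Fin 3 × Fin 3 => K * (‖(p.1 : V3) x.1‖ * ‖(p.2 : V3) x.2‖))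
        (fun x _ => by positivity) (Finset.mem_univ (i, j))

/-- The starting functional `(0, r) ↦ r`. -/
def startF : W →ₗ.[ℝ] ℝ where
  domain := LinearMap.ker (LinearMap.fst ℝ (CompactlySupportedContinuousMap PP ℝ) ℝ)
  toFun := (LinearMap.snd ℝ (CompactlySupportedContinuousMap PP ℝ) ℝ).comp (Submodule.subtype _)

/-- No certificate implies a dominating measure. -/
theorem exists_measure (hNC : ∀ C : Cert, (∀ a b, C.lo a b ≤ C.up a b) → C.lov ≤ C.upv) :
    ∃ M : Measure PP, IsFiniteMeasure M ∧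
      (∀ t ψ : V3, ‖dot ψ t‖ ≤ ∫ p, ‖dot p.1.1 t‖ * ‖dot p.2.1 ψ‖ ∂M) ∧
      (∀ (t ψ : V3) (D : ℝ), Adm ψ D → ∫ p, ‖dot p.1.1 t‖ * ‖dot p.2.1 ψ‖ ∂M ≤ N1 t * D) := by
  obtain ⟨g, hg, hgs⟩ := riesz_extension coneS startF (by
      rintro ⟨⟨x, r⟩, hx⟩ ⟨C, hC, hC'⟩
      have hx0 : x = 0 := hx
      subst hx0
      have h0 : ∀ p : PP, C.lo p.1.1 p.2.1 ≤ C.up p.1.1 p.2.1 := by
        intro p
        simpa using hC p
      have h1 := hNC C (C.le_of_sphere h0)
      show 0 ≤ r
      have : C.upv - C.lov ≤ r := hC'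
      linarith) (by
      rintro ⟨f, r⟩
      obtain ⟨K, hK⟩ := (isCompact_range f.continuous).bddAbove
      set K' := max K 0
      have hK' : 0 ≤ K' := le_max_right _ _
      refine ⟨⟨(0, (bigCert K' hK').upv - (bigCert K' hK').lov - r), by simp [startF]⟩, ?_⟩
      refine ⟨bigCert K' hK', fun p => ?_, ?_⟩
      · have h1 : f p ≤ K' := (hK ⟨p, rfl⟩).trans (le_max_left _ _)
        have h2 := le_bigCert_up K' hK' p
        rw [bigCert_lo]
        show (0 + f) p + 0 ≤ _
        rw [zero_add, add_zero]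
        exact h1.trans h2
      · show _ ≤ (bigCert K' hK').upv - (bigCert K' hK').lov - r + r
        linarith)
  have hg0 : ∀ r : ℝ, g (0, r) = r := by
    intro r
    have := hg ⟨(0, r), by simp [startF]⟩
    simpa [startF] using! this
  set L : CompactlySupportedContinuousMap PP ℝ →ₗ[ℝ] ℝ :=
    - (g.comp (LinearMap.inl ℝ (CompactlySupportedContinuousMap PP ℝ) ℝ)) with hL
  have hLap : ∀ f, L f = - g (f, 0) := fun f => by simp [hL]
  have hsplit : ∀ f r, g (f, r) = - L f + r := by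
    intro f r
    have : ((f, r) : W) = (f, 0) + (0, r) := by simp
    rw [this, map_add, hg0, hLap]; ring
  have hpos : ∀ f : CompactlySupportedContinuousMap PP ℝ, 0 ≤ f → 0 ≤ L f := by
    intro f hf
    have h1 : ((-f, 0) : W) ∈ coneS := by
      refine ⟨Cert.zero, fun p => ?_, by simp⟩
      have : 0 ≤ f p := by simpa using! hf p
      simpa using this
    have h2 := hgs _ h1
    rw [hsplit] at h2
    simpa using h2
  let Λ : CompactlySupportedContinuousMap PP ℝ →ₚ[ℝ] ℝ := PositiveLinearMap.mk₀ L hpos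
  have hΛ : ∀ f, Λ f = L f := fun f => rfl
  refine ⟨RealRMK.rieszMeasure Λ, inferInstance, ?_, ?_⟩
  · intro t ψ
    have h1 : ((-(hfun t ψ), -‖dot ψ t‖) : W) ∈ coneS := by
      refine ⟨Cert.low t ψ, fun p => ?_, ?_⟩
      · rw [Cert.low_lo, Cert.low_up]
        simp [hfun_apply]
      · rw [Cert.low_lov, Cert.low_upv]; simp
    have h2 := hgs _ h1
    rw [hsplit] at h2
    have h3 := RealRMK.integral_rieszMeasure Λ (hfun t ψ)
    rw [hΛ] at h3
    simp only [hfun_apply] at h3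
    rw [h3]
    have h4 : L (-(hfun t ψ)) = - L (hfun t ψ) := map_neg _ _
    linarith
  · intro t ψ D hD
    have h1 : ((hfun t ψ, N1 t * D) : W) ∈ coneS := by
      refine ⟨Cert.upp t ψ D hD, fun p => ?_, ?_⟩
      · rw [Cert.upp_up, Cert.upp_lo]
        simp [hfun_apply]
      · rw [Cert.upp_upv, Cert.upp_lov]; simp
    have h2 := hgs _ h1
    rw [hsplit] at h2
    have h3 := RealRMK.integral_rieszMeasure Λ (hfun t ψ)
    rw [hΛ] at h3
    simp only [hfun_apply] at h3
    rw [h3]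
    linarith

end HB
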