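import Pool.Agent.Helper821.HB.Primes
import Pool.Agent.Helper821.HB.Defs

open MeasureTheory Filter Topology
open scoped ComplexConjugate

noncomputable section

namespace HB

/-- the polynomial on the torus -/
def torusPoly {κ : Type} [Fintype κ] (e : ℕ+ → κ → ℤ) (a : ℕ+ →₀ ℂ) : C(UnitAddTorus κ, ℂ) :=
  a.sum fun n c => c • UnitAddTorus.mFourier (e n)

lemma torusPoly_apply {κ : Type} [Fintype κ] (e : ℕ+ → κ → ℤ) (a : ℕ+ →₀ ℂ)
    (x : UnitAddTorus κ) :
    torusPoly e a x = ∑ n ∈ a.support, a n * UnitAddTorus.mFourier (e n) x := by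
  unfold torusPoly Finsupp.sum
  rw [ContinuousMap.coe_sum]
  simp

lemma norm_formula {κ : Type} [Fintype κ] (l : κ → ℝ)
    (hl : ∀ m : κ → ℤ, ∑ i, m i * l i = 0 → m = 0) (e : ℕ+ → κ → ℤ) (a : ℕ+ →₀ ℂ)
    (he : ∀ n ∈ a.support, ∑ i, (e n i : ℝ) * l i = -Real.log (n : ℕ) / (2 * Real.pi)) :
    Tendsto (vMean a) atTop (𝓝 (∫ x, ‖torusPoly e a x‖)) := by
  have h1 : ∀ t, torusPoly e a (lin l t) = dirPoly a t := by
    intro t
    rw [torusPoly_apply]
    unfold dirPoly Finsupp.sum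
    refine Finset.sum_congr rfl fun n hn => ?_
    congr 1
    rw [mFourier_lin, he n hn]
    have hn0 : ((n : ℕ) : ℂ) ≠ 0 := by exact_mod_cast n.ne_zero
    rw [Complex.cpow_def_of_ne_zero hn0, ← Complex.natCast_log]
    congr 1
    have hp : (Real.pi : ℂ) ≠ 0 := by exact_mod_cast Real.pi_ne_zero
    push_cast
    field_simp
  let g : C(UnitAddTorus κ, ℂ) := ⟨fun x => ((‖torusPoly e a x‖ : ℝ) : ℂ),
    Complex.continuous_ofReal.comp (map_continuous (torusPoly e a)).norm⟩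
  have h2 := kronecker_weyl l hl g
  have h3 : (∫ x, g x) = ((∫ x, ‖torusPoly e a x‖ : ℝ) : ℂ) := by
    show ∫ x, ((‖torusPoly e a x‖ : ℝ) : ℂ) = _
    exact integral_complex_ofReal
  have h4 : ∀ T, avg (fun t => g (lin l t)) T = ((vMean a T : ℝ) : ℂ) := by
    intro T
    unfold avg vMean
    have : (fun t => g (lin l t)) = fun t => ((‖dirPoly a t‖ : ℝ) : ℂ) := by
      ext t
      show ((‖torusPoly e a (lin l t)‖ : ℝ) : ℂ) = _
      rw [h1]
    rw [this, intervalIntegral.integral_ofReal]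
    rw [Complex.real_smul]
    push_cast; ring
  rw [h3] at h2
  have h5 : Tendsto (fun T => ((vMean a T : ℝ) : ℂ)) atTop
      (𝓝 ((∫ x, ‖torusPoly e a x‖ : ℝ) : ℂ)) := h2.congr h4
  have h6 := (Complex.continuous_re.tendsto _).comp h5
  simpa [Function.comp_def] using h6

/-- existence of the limit -/
lemma exists_lim (a : ℕ+ →₀ ℂ) : ∃ r, Tendsto (vMean a) atTop (𝓝 r) := by
  obtain ⟨L, -, hL⟩ := exists_bound a 0
  exact ⟨_, norm_formula (fr L) (fr_indep L) (ex L) a (fun n hn => ex_fr (hL n hn))⟩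

/-- the norm as an integral over the torus -/
lemma norm_eq_integral {E : Type*} [NormedAddCommGroup E] [NormedSpace ℂ E]
    {ι : (ℕ+ →₀ ℂ) →ₗ[ℂ] E} (h : IsHardyOne E ι) {L : ℕ} {a : ℕ+ →₀ ℂ}
    (hL : ∀ n ∈ a.support, Bd L n) : ‖ι a‖ = ∫ x, ‖torusPoly (ex L) a x‖ :=
  tendsto_nhds_unique (h.norm_eq a)
    (norm_formula (fr L) (fr_indep L) (ex L) a (fun n hn => ex_fr (hL n hn)))

end HB
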