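import Pool.Agent.Helper821.HB.KW

open MeasureTheory Filter Topology
open scoped ComplexConjugate

noncomputable section

namespace HB

/-- the `i`-th prime -/
def P (i : ℕ) : ℕ := Nat.nth Nat.Prime i

lemma P_prime (i : ℕ) : (P i).Prime := Nat.prime_nth_prime i

lemma P_strictMono : StrictMono P := Nat.nth_strictMono Nat.infinite_setOfPred_prime

lemma P_surj {p : ℕ} (hp : p.Prime) : ∃ i, P i = p := ⟨Nat.count Nat.Prime p, Nat.nth_count hp⟩

/-- primes in pairs -/
def pr (x : ℕ × Bool) : ℕ := P (2 * x.1 + x.2.toNat)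

lemma pr_prime (x : ℕ × Bool) : (pr x).Prime := P_prime _

lemma pr_inj : Function.Injective pr := by
  rintro ⟨i, b⟩ ⟨j, c⟩ h
  have h1 := P_strictMono.injective h
  simp only at h1
  cases b <;> cases c <;> simp only [Bool.toNat_true, Bool.toNat_false] at h1
  · have : i = j := by omega
    rw [this]
  · omega
  · omega
  · have : i = j := by omega
    rw [this]

lemma pr_surj {p : ℕ} (hp : p.Prime) : ∃ x, pr x = p := by
  obtain ⟨i, hi⟩ := P_surj hp
  rcases Nat.even_or_odd' i with ⟨j, hj | hj⟩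
  · exact ⟨(j, false), by rw [← hi, hj]; simp [pr]⟩
  · exact ⟨(j, true), by rw [← hi, hj]; simp [pr]⟩

lemma le_pr (x : ℕ × Bool) : x.1 ≤ pr x := by
  have h := P_strictMono.le_apply (x := 2 * x.1 + x.2.toNat)
  unfold pr
  omega

lemma factorization_prod_pr {X : Type} [Fintype X] [DecidableEq X] (g : X → ℕ) (hg : ∀ x, (g x).Prime)
    (c : X → ℕ) (p : ℕ) :
    (∏ x, g x ^ c x).factorization p = ∑ x, if g x = p then c x else 0 := by
  rw [Nat.factorization_prod (fun x _ => pow_ne_zero _ (hg x).ne_zero)]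
  rw [Finsupp.finsetSum_apply]
  refine Finset.sum_congr rfl fun x _ => ?_
  rw [(hg x).factorization_pow, Finsupp.single_apply]

lemma log_indep {X : Type} [Fintype X] [DecidableEq X] (g : X → ℕ) (hg : ∀ x, (g x).Prime)
    (hinj : Function.Injective g) (m : X → ℤ) (h : ∑ x, m x * Real.log (g x) = 0) : m = 0 := by
  set A := ∏ x, g x ^ (m x).toNat with hA
  set B := ∏ x, g x ^ (-m x).toNat with hB
  have hpos : ∀ x, (0 : ℝ) < g x := fun x => by exact_mod_cast (hg x).pos
  have hlogA : Real.log (A : ℝ) = ∑ x, ((m x).toNat : ℝ) * Real.log (g x) := by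
    rw [hA]; push_cast
    rw [Real.log_prod (fun x _ => (pow_pos (hpos x) _).ne')]
    exact Finset.sum_congr rfl fun x _ => Real.log_pow _ _
  have hlogB : Real.log (B : ℝ) = ∑ x, ((-m x).toNat : ℝ) * Real.log (g x) := by
    rw [hB]; push_cast
    rw [Real.log_prod (fun x _ => (pow_pos (hpos x) _).ne')]
    exact Finset.sum_congr rfl fun x _ => Real.log_pow _ _
  have hAB : Real.log (A : ℝ) = Real.log (B : ℝ) := by
    rw [← sub_eq_zero, hlogA, hlogB, ← Finset.sum_sub_distrib, ← h]
    refine Finset.sum_congr rfl fun x _ => ?_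
    have : ((m x : ℤ) : ℝ) = ((m x).toNat : ℝ) - ((-m x).toNat : ℝ) := by
      have h1 : m x = ((m x).toNat : ℤ) - ((-m x).toNat : ℤ) := by omega
      have h2 : ((m x : ℤ) : ℝ) = ((((m x).toNat : ℤ) - ((-m x).toNat : ℤ) : ℤ) : ℝ) := by
        rw [← h1]
      rw [h2]; push_cast; ring
    rw [this]; ring
  have hApos : (0 : ℝ) < A := by
    rw [hA]; push_cast; exact Finset.prod_pos fun x _ => pow_pos (hpos x) _
  have hBpos : (0 : ℝ) < B := by
    rw [hB]; push_cast; exact Finset.prod_pos fun x _ => pow_pos (hpos x) _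
  have hAB' : A = B := by exact_mod_cast Real.log_injOn_pos hApos hBpos hAB
  ext y
  have h1 := factorization_prod_pr g hg (fun x => (m x).toNat) (g y)
  have h2 := factorization_prod_pr g hg (fun x => (-m x).toNat) (g y)
  rw [← hA, hAB'] at h1
  rw [← hB] at h2
  have h3 := h1.symm.trans h2
  simp only [hinj.eq_iff, Finset.sum_ite_eq', Finset.mem_univ, if_true] at h3
  simp only [Pi.zero_apply]
  omega

/-- exponent of the prime `pr x` in `n` -/
def vv (n : ℕ+) (x : ℕ × Bool) : ℕ := (n : ℕ).factorization (pr x)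

/-- inclusion of a finite index set of primes -/
def upx {L : ℕ} (x : Fin L × Bool) : ℕ × Bool := (x.1, x.2)

lemma upx_inj {L : ℕ} : Function.Injective (upx (L := L)) := by
  rintro ⟨i, b⟩ ⟨j, c⟩ h
  simp only [upx, Prod.mk.injEq] at h
  exact Prod.ext (Fin.ext h.1) h.2

/-- all primes dividing `n` are among the first `L` pairs -/
def Bd (L : ℕ) (n : ℕ+) : Prop := ∀ x : ℕ × Bool, L ≤ x.1 → vv n x = 0

lemma exists_bound (a : ℕ+ →₀ ℂ) (k : ℕ) : ∃ L, k ≤ L ∧ ∀ n ∈ a.support, Bd L n := by
  refine ⟨k + (a.support.sup fun n => (n : ℕ)) + 1, by omega, ?_⟩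
  intro n hn x hx
  have h1 : (n : ℕ) ≤ a.support.sup fun n => (n : ℕ) :=
    Finset.le_sup (f := fun n : ℕ+ => (n : ℕ)) hn
  unfold vv
  by_contra hne
  have h2 := Nat.le_of_dvd n.pos (Nat.dvd_of_factorization_pos hne)
  have h3 := le_pr x
  omega

lemma log_eq {L : ℕ} {n : ℕ+} (hn : Bd L n) :
    Real.log (n : ℕ) = ∑ x : Fin L × Bool, (vv n (upx x) : ℝ) * Real.log (pr (upx x)) := by
  classical
  rw [Real.log_nat_eq_sum_factorization]
  have hsub : (n : ℕ).factorization.support ⊆
      (Finset.univ : Finset (Fin L × Bool)).image (fun x => pr (upx x)) := by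
    intro p hp
    have hpp : p.Prime := Nat.prime_of_mem_primeFactors (by rwa [← Nat.support_factorization])
    obtain ⟨x, rfl⟩ := pr_surj hpp
    rw [Finset.mem_image]
    have hx : x.1 < L := by
      by_contra hcon
      have := hn x (not_lt.1 hcon)
      rw [Finsupp.mem_support_iff] at hp
      exact hp this
    exact ⟨(⟨x.1, hx⟩, x.2), Finset.mem_univ _, rfl⟩
  rw [Finsupp.sum_of_support_subset _ hsub _ (fun p _ => by simp)]
  rw [Finset.sum_image (fun x _ y _ h => upx_inj (pr_inj h))]
  rfl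

/-- exponent vector -/
def ex (L : ℕ) (n : ℕ+) : Fin L × Bool → ℤ := fun x =>
  if x.2 then (vv n (x.1, false) : ℤ) + vv n (x.1, true) else vv n (x.1, false)

/-- frequency vector -/
def fr (L : ℕ) : Fin L × Bool → ℝ := fun x =>
  if x.2 then -Real.log (pr (x.1, true)) / (2 * Real.pi)
    else -(Real.log (pr (x.1, false)) - Real.log (pr (x.1, true))) / (2 * Real.pi)

lemma ex_fr {L : ℕ} {n : ℕ+} (hn : Bd L n) :
    ∑ x, (ex L n x : ℝ) * fr L x = -Real.log (n : ℕ) / (2 * Real.pi) := by
  rw [log_eq hn, Fintype.sum_prod_type, Fintype.sum_prod_type, ← Finset.sum_neg_distrib,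
    Finset.sum_div]
  refine Finset.sum_congr rfl fun j _ => ?_
  rw [Fintype.sum_bool, Fintype.sum_bool]
  simp only [ex, fr, upx, if_true]
  simp only [Bool.false_eq_true, if_false]
  push_cast
  ring

lemma fr_indep (L : ℕ) (m : Fin L × Bool → ℤ) (h : ∑ x, m x * fr L x = 0) : m = 0 := by
  set m' : Fin L × Bool → ℤ := fun x => if x.2 then m (x.1, true) - m (x.1, false)
    else m (x.1, false) with hm'
  have h1 : ∑ x, (m' x : ℝ) * Real.log (pr (upx x)) = 0 := by
    have h2 : ∑ x, (m' x : ℝ) * Real.log (pr (upx x)) =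
        -(2 * Real.pi) * ∑ x, m x * fr L x := by
      rw [Fintype.sum_prod_type, Fintype.sum_prod_type, Finset.mul_sum]
      refine Finset.sum_congr rfl fun j _ => ?_
      rw [Fintype.sum_bool, Fintype.sum_bool]
      simp only [hm', fr, upx, if_true]
      simp only [Bool.false_eq_true, if_false]
      have := Real.pi_ne_zero
      push_cast
      field_simp
      ring
    rw [h2, h, mul_zero]
  have h3 := log_indep (fun x : Fin L × Bool => pr (upx x)) (fun x => pr_prime _)
    (pr_inj.comp upx_inj) m' h1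
  ext ⟨j, b⟩
  have e1 := congrFun h3 (j, false)
  have e2 := congrFun h3 (j, true)
  simp only [hm', if_true, Pi.zero_apply] at e1 e2
  simp only [Bool.false_eq_true, if_false] at e1
  cases b
  · simpa using e1
  · simp only [Pi.zero_apply]; omega

end HB
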