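import Mathlib

open Filter Topology

namespace HB

variable {E : Type*} [NormedAddCommGroup E]

/-- If every rearrangement of a series converges then the series is unconditionally summable. -/
theorem summable_of_rearr [CompleteSpace E] (F : ℕ → E)
    (h : ∀ σ : Equiv.Perm ℕ, ∃ y, Tendsto (fun N => ∑ n ∈ Finset.range N, F (σ n)) atTop (𝓝 y)) :
    Summable F := by
  classical
  by_contra hns
  rw [summable_iff_vanishing_norm] at hns
  push Not at hns
  obtain ⟨ε, hε, hT⟩ := hns
  choose T hTd hTn using hT
  -- block boundaries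
  let nxt : ℕ → ℕ := fun m => max m ((T (Finset.range m)).sup id) + 1
  let m : ℕ → ℕ := fun k => Nat.rec 0 (fun _ r => nxt r) k
  have hm_succ : ∀ k, m (k + 1) = nxt (m k) := fun k => rfl
  have hlt : ∀ k, m k < m (k + 1) := fun k => by
    rw [hm_succ]; exact Nat.lt_succ_of_le (le_max_left _ _)
  have hmono : StrictMono m := strictMono_nat_of_lt_succ hlt
  set A : ℕ → Finset ℕ := fun k => T (Finset.range (m k)) with hA
  have hAsub : ∀ k, A k ⊆ Finset.Ico (m k) (m (k + 1)) := by
    intro k n hn
    rw [Finset.mem_Ico]
    constructor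
    · have := Finset.disjoint_left.1 (hTd (Finset.range (m k))) hn
      simpa using this
    · rw [hm_succ]
      refine Nat.lt_succ_of_le (le_trans ?_ (le_max_right _ _))
      exact Finset.le_sup (f := id) hn
  -- block index
  have hex : ∀ n, ∃ k, n < m (k + 1) := fun n =>
    ⟨n, lt_of_lt_of_le (Nat.lt_succ_self n) (hmono.id_le (n + 1))⟩
  let kk : ℕ → ℕ := fun n => Nat.find (hex n)
  have hkk1 : ∀ n, n < m (kk n + 1) := fun n => Nat.find_spec (hex n)
  have hkk0 : ∀ n, m (kk n) ≤ n := by
    intro n
    by_contra hcon
    push Not at hcon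
    rcases Nat.eq_zero_or_pos (kk n) with h0 | h0
    · rw [h0] at hcon
      exact absurd hcon (Nat.not_lt_zero _)
    · have : n < m ((kk n - 1) + 1) := by rwa [Nat.sub_add_cancel h0]
      exact Nat.find_min (hex n) (m := kk n - 1) (show kk n - 1 < kk n by omega) this
  have hkk_unique : ∀ n k, m k ≤ n → n < m (k + 1) → kk n = k := by
    intro n k h1 h2
    have h3 : kk n ≤ k := Nat.find_le h2
    have h4 : k ≤ kk n := by
      by_contra hcon
      push Not at hcon
      have := hmono.monotone (Nat.succ_le_of_lt hcon)
      have := hkk1 n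
      simp only [Nat.succ_eq_add_one] at *
      omega
    omega
  -- block permutations
  have hperm : ∀ k, ∃ π : Equiv.Perm ℕ, (∀ n, (m k ≤ n ∧ n < m (k + 1)) ↔ (m k ≤ π n ∧ π n < m (k + 1))) ∧
      (Finset.Ico (m k) (m k + (A k).card)).image π = A k := by
    intro k
    have hcard : (A k).card ≤ m (k + 1) - m k := by
      have := Finset.card_le_card (hAsub k)
      simpa using this
    -- work on the subtype
    let P : {n // n ∈ Finset.Ico (m k) (m (k + 1))} → Prop :=
      fun b => b.1 ∈ Finset.Ico (m k) (m k + (A k).card)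
    let Q : {n // n ∈ Finset.Ico (m k) (m (k + 1))} → Prop := fun b => b.1 ∈ A k
    have hPQ : Fintype.card {b // P b} = Fintype.card {b // Q b} := by
      have e1 : Fintype.card {b // P b} = (A k).card := by
        rw [Fintype.card_subtype]
        have : (Finset.univ.filter P) = (Finset.Ico (m k) (m k + (A k).card)).subtype
            (fun n => n ∈ Finset.Ico (m k) (m (k + 1))) := by
          ext b
          simp [P]
        rw [this, Finset.card_subtype, Finset.filter_true_of_mem]
        · simp
        · intro n hn
          have := hlt k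
          rw [Finset.mem_Ico] at hn ⊢
          omega
      have e2 : Fintype.card {b // Q b} = (A k).card := by
        rw [Fintype.card_subtype]
        have : (Finset.univ.filter Q) = (A k).subtype
            (fun n => n ∈ Finset.Ico (m k) (m (k + 1))) := by
          ext b
          simp [Q]
        rw [this, Finset.card_subtype, Finset.filter_true_of_mem]
        exact fun n hn => hAsub k hn
      rw [e1, e2]
    let e0 : {b // P b} ≃ {b // Q b} := Fintype.equivOfCardEq hPQ
    let π0 : Equiv.Perm {n // n ∈ Finset.Ico (m k) (m (k + 1))} := e0.extendSubtype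
    let π : Equiv.Perm ℕ := Equiv.Perm.ofSubtype π0
    have hmem : ∀ n, n ∈ Finset.Ico (m k) (m (k + 1)) → π n ∈ Finset.Ico (m k) (m (k + 1)) := by
      intro n hn
      rw [Equiv.Perm.ofSubtype_apply_of_mem π0 hn]
      exact (π0 ⟨n, hn⟩).2
    have hnmem : ∀ n, n ∉ Finset.Ico (m k) (m (k + 1)) → π n = n := by
      intro n hn
      exact Equiv.Perm.ofSubtype_apply_of_not_mem π0 hn
    refine ⟨π, ?_, ?_⟩
    · intro n
      rw [← Finset.mem_Ico, ← Finset.mem_Ico]
      constructor
      · exact hmem n
      · intro hn
        by_contra hcon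
        rw [hnmem n hcon] at hn
        exact hcon hn
    · apply Finset.eq_of_subset_of_card_le
      · intro x hx
        rw [Finset.mem_image] at hx
        obtain ⟨n, hn, rfl⟩ := hx
        have hn' : n ∈ Finset.Ico (m k) (m (k + 1)) := by
          rw [Finset.mem_Ico] at hn ⊢
          have := hlt k
          omega
        rw [Equiv.Perm.ofSubtype_apply_of_mem π0 hn']
        exact e0.extendSubtype_mem ⟨n, hn'⟩ hn
      · rw [Finset.card_image_of_injective _ π.injective]; simp
  choose π hπ1 hπ2 using hperm
  -- inverse preserves blocks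
  have hπ1' : ∀ k n, (m k ≤ n ∧ n < m (k + 1)) ↔ (m k ≤ (π k).symm n ∧ (π k).symm n < m (k + 1)) := by
    intro k n
    rw [hπ1 k ((π k).symm n), Equiv.apply_symm_apply]
  let σ : Equiv.Perm ℕ :=
    { toFun := fun n => π (kk n) n
      invFun := fun n => (π (kk n)).symm n
      left_inv := by
        intro n
        have h1 := (hπ1 (kk n) n).1 ⟨hkk0 n, hkk1 n⟩
        have h2 : kk (π (kk n) n) = kk n := hkk_unique _ _ h1.1 h1.2
        show (π (kk (π (kk n) n))).symm (π (kk n) n) = n
        rw [h2, Equiv.symm_apply_apply]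
      right_inv := by
        intro n
        have h1 := (hπ1' (kk n) n).1 ⟨hkk0 n, hkk1 n⟩
        have h2 : kk ((π (kk n)).symm n) = kk n := hkk_unique _ _ h1.1 h1.2
        show π (kk ((π (kk n)).symm n)) ((π (kk n)).symm n) = n
        rw [h2, Equiv.apply_symm_apply] }
  obtain ⟨y, hy⟩ := h σ
  have hc := hy.cauchySeq
  rw [Metric.cauchySeq_iff] at hc
  obtain ⟨N, hN⟩ := hc ε hε
  have h1 := hN (m N + (A N).card) (le_trans (hmono.id_le N) (Nat.le_add_right _ _)) (m N)
    (hmono.id_le N)
  rw [dist_eq_norm, ← Finset.sum_Ico_eq_sub _ (Nat.le_add_right _ _)] at h1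
  have h2 : ∑ n ∈ Finset.Ico (m N) (m N + (A N).card), F (σ n) = ∑ n ∈ A N, F n := by
    rw [← hπ2 N, Finset.sum_image (fun a _ b _ hab => (π N).injective hab)]
    refine Finset.sum_congr (by rw [hπ2 N]) fun n hn => ?_
    have hcard : (A N).card ≤ m (N + 1) - m N := by
      have := Finset.card_le_card (hAsub N)
      simpa using this
    have hk : kk n = N := by
      rw [Finset.mem_Ico] at hn
      exact hkk_unique n N hn.1 (by
        have := hlt N
        have h5 := hn.2
        omega)
    show F (π (kk n) n) = F (π N n)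
    rw [hk]
  rw [h2] at h1
  exact absurd h1 (not_lt.2 (hTn (Finset.range (m N))))

end HB
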