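import Pool.Agent.Helper821.HB.Circ

open MeasureTheory Filter Topology
open scoped ComplexConjugate

noncomputable section

namespace HB

lemma equality_case (x w : ℂ) (h : ‖x + w‖ + ‖x - w‖ = 2 * ‖x‖) :
    ∃ l : ℝ, |l| ≤ 1 ∧ w = l * x := by
  by_cases hx : x = 0
  · subst hx
    refine ⟨0, by simp, ?_⟩
    have : w = 0 := by simpa using h
    simpa using this
  · have hn : 0 < ‖x‖ := norm_pos_iff.2 hx
    obtain ⟨u, rfl⟩ : ∃ u, w = u * x := ⟨w / x, by field_simp⟩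
    have e1 : x + u * x = (1 + u) * x := by ring
    have e2 : x - u * x = (1 - u) * x := by ring
    rw [e1, e2, norm_mul, norm_mul, ← add_mul] at h
    have h1 : ‖1 + u‖ + ‖1 - u‖ = 2 := mul_right_cancel₀ hn.ne' h
    have hP : ‖1 + u‖ ^ 2 = (1 + u.re) ^ 2 + u.im ^ 2 := by
      rw [← Complex.normSq_eq_norm_sq, Complex.normSq_apply]; simp; ring
    have hQ : ‖1 - u‖ ^ 2 = (1 - u.re) ^ 2 + u.im ^ 2 := by
      rw [← Complex.normSq_eq_norm_sq, Complex.normSq_apply]; simp; ring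
    have h2 : ‖1 + u‖ - ‖1 - u‖ = 2 * u.re := by
      have : (‖1 + u‖ - ‖1 - u‖) * (‖1 + u‖ + ‖1 - u‖) = 4 * u.re := by nlinarith
      rw [h1] at this; linarith
    have h3 : ‖1 + u‖ = 1 + u.re := by linarith
    have h4 : ‖1 - u‖ = 1 - u.re := by linarith
    have h5 : u.im = 0 := by
      rw [h3] at hP
      have : u.im ^ 2 = 0 := by linarith
      exact pow_eq_zero_iff (two_ne_zero) |>.1 this
    refine ⟨u.re, ?_, ?_⟩
    · rw [abs_le]
      constructor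
      · have := norm_nonneg (1 + u); linarith
      · have := norm_nonneg (1 - u); linarith
    · have : u = (u.re : ℂ) := Complex.ext (by simp) (by simp [h5])
      rw [← this]

lemma slope_lower (b w : ℂ) (hb : b ≠ 0) (x : ℝ) (hx : 0 < x) :
    (w * conj b).re / ‖b‖ ≤ (‖b + x * w‖ - ‖b‖) / x := by
  have hr : 0 < ‖b‖ := norm_pos_iff.2 hb
  rw [div_le_div_iff₀ hr hx]
  have h1 : ((b + x * w) * conj b).re ≤ ‖b + x * w‖ * ‖b‖ := by
    calc _ ≤ ‖(b + x * w) * conj b‖ := Complex.re_le_norm _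
      _ = _ := by rw [norm_mul, RCLike.norm_conj]
  have h2 : ((b + x * w) * conj b).re = ‖b‖ ^ 2 + x * (w * conj b).re := by
    rw [add_mul, Complex.add_re, Complex.mul_conj, Complex.normSq_eq_norm_sq, mul_assoc,
      Complex.re_ofReal_mul]
    norm_cast
  nlinarith

lemma slope_upper (b w : ℂ) (hb : b ≠ 0) (x : ℝ) (hx : 0 < x) :
    (‖b + x * w‖ - ‖b‖) / x ≤ (w * conj b).re / ‖b‖ + x * ‖w‖ ^ 2 / (2 * ‖b‖) := by
  have hr : 0 < ‖b‖ := norm_pos_iff.2 hb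
  have h2 : ‖b + x * w‖ ^ 2 = ‖b‖ ^ 2 + 2 * x * (w * conj b).re + x ^ 2 * ‖w‖ ^ 2 := by
    rw [← Complex.normSq_eq_norm_sq, Complex.normSq_add, Complex.normSq_mul,
      Complex.normSq_ofReal, Complex.normSq_eq_norm_sq, Complex.normSq_eq_norm_sq, map_mul,
      Complex.conj_ofReal]
    have : (b * (x * conj w)).re = x * (w * conj b).re := by
      simp [Complex.mul_re, Complex.mul_im]; ring
    rw [this]; ring
  rw [div_add_div _ _ hr.ne' (by positivity), div_le_div_iff₀ hx (by positivity)]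
  have h3 : 2 * ‖b‖ * ‖b + x * w‖ ≤ ‖b + x * w‖ ^ 2 + ‖b‖ ^ 2 := by
    nlinarith [sq_nonneg (‖b + x * w‖ - ‖b‖)]
  rw [h2] at h3
  have h4 : 2 * ‖b‖ * (‖b + x * w‖ - ‖b‖) ≤ 2 * x * (w * conj b).re + x ^ 2 * ‖w‖ ^ 2 := by
    nlinarith
  nlinarith

/-- the step sizes -/
def xs (n : ℕ) : ℝ := 1 / ((n : ℝ) + 1)

lemma xs_pos (n : ℕ) : 0 < xs n := by unfold xs; positivity

lemma xs_tendsto : Tendsto xs atTop (𝓝 0) := tendsto_one_div_add_atTop_nhds_zero_nat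

lemma tendsto_slope (b w : ℂ) (hb : b ≠ 0) :
    Tendsto (fun n => (‖b + (xs n : ℂ) * w‖ - ‖b‖) / xs n) atTop
      (𝓝 ((w * conj b).re / ‖b‖)) := by
  have h1 : Tendsto (fun n => (w * conj b).re / ‖b‖ + xs n * ‖w‖ ^ 2 / (2 * ‖b‖)) atTop
      (𝓝 ((w * conj b).re / ‖b‖)) := by
    have := ((xs_tendsto.mul_const (‖w‖ ^ 2)).div_const (2 * ‖b‖)).const_add
      ((w * conj b).re / ‖b‖)
    simpa using this
  exact tendsto_of_tendsto_of_tendsto_of_le_of_le tendsto_const_nhds h1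
    (fun n => slope_lower b w hb _ (xs_pos n)) (fun n => slope_upper b w hb _ (xs_pos n))

lemma abs_slope_le (b w : ℂ) (n : ℕ) : |(‖b + (xs n : ℂ) * w‖ - ‖b‖) / xs n| ≤ ‖w‖ := by
  rw [abs_div, abs_of_pos (xs_pos n), div_le_iff₀ (xs_pos n)]
  have h1 : |‖b + (xs n : ℂ) * w‖ - ‖b‖| ≤ ‖b + (xs n : ℂ) * w - b‖ := abs_norm_sub_norm_le _ _
  rw [add_sub_cancel_left, norm_mul, Complex.norm_real, Real.norm_of_nonneg (xs_pos n).le] at h1
  linarith

lemma final_alg (A B C E : ℂ)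
    (h1 : (A + conj (1 : ℂ) * B + conj (1 : ℂ) ^ 2 * C + (1 : ℂ) * E).im = 0)
    (h2 : (A + conj (-1 : ℂ) * B + conj (-1 : ℂ) ^ 2 * C + (-1 : ℂ) * E).im = 0)
    (h3 : (A + conj (Complex.I) * B + conj (Complex.I) ^ 2 * C + (Complex.I) * E).im = 0)
    (h4 : (A + conj (-Complex.I) * B + conj (-Complex.I) ^ 2 * C + (-Complex.I) * E).im = 0)
    (h5 : (A + conj (⟨3 / 5, 4 / 5⟩ : ℂ) * B + conj (⟨3 / 5, 4 / 5⟩ : ℂ) ^ 2 * C +
      (⟨3 / 5, 4 / 5⟩ : ℂ) * E).im = 0) : C = 0 := by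
  simp [pow_two] at h1 h2 h3 h4 h5
  apply Complex.ext
  · simp; linarith
  · simp; linarith

end HB
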