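import Pool.Agent.Helper821.HB.Rigid

open MeasureTheory Filter Topology
open scoped ComplexConjugate

noncomputable section

namespace HB

lemma continuous_pa (i : Fin 3) : Continuous (fun p : PP => p.1.1 i) :=
  (continuous_apply i).comp (continuous_subtype_val.comp continuous_fst)

lemma continuous_pb (i : Fin 3) : Continuous (fun p : PP => p.2.1 i) :=
  (continuous_apply i).comp (continuous_subtype_val.comp continuous_snd)

lemma norm_pa_le (p : PP) (i : Fin 3) : ‖p.1.1 i‖ ≤ 1 := by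
  have h : ‖p.1.1‖ = 1 := by simp
  rw [← h]; exact norm_le_pi_norm _ i

lemma norm_pb_le (p : PP) (i : Fin 3) : ‖p.2.1 i‖ ≤ 1 := by
  have h : ‖p.2.1‖ = 1 := by simp
  rw [← h]; exact norm_le_pi_norm _ i

lemma pa_ne (p : PP) : ¬ (p.1.1 0 = 0 ∧ p.1.1 1 = 0 ∧ p.1.1 2 = 0) := by
  rintro ⟨h0, h1, h2⟩
  have h : ‖p.1.1‖ = 1 := by simp
  have h' : p.1.1 = 0 := by
    ext i; fin_cases i
    · exact h0
    · exact h1
    · exact h2
  rw [h'] at h; simp at h

lemma pb_ne (p : PP) : ¬ (p.2.1 0 = 0 ∧ p.2.1 1 = 0 ∧ p.2.1 2 = 0) := by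
  rintro ⟨h0, h1, h2⟩
  have h : ‖p.2.1‖ = 1 := by simp
  have h' : p.2.1 = 0 := by
    ext i; fin_cases i
    · exact h0
    · exact h1
    · exact h2
  rw [h'] at h; simp at h

section
variable (M : Measure PP) [IsFiniteMeasure M]

/-- the integral functional -/
def G (t ψ : V3) : ℝ := ∫ p, ‖dot p.1.1 t‖ * ‖dot p.2.1 ψ‖ ∂M

lemma integrable_h (t ψ : V3) :
    Integrable (fun p : PP => ‖dot p.1.1 t‖ * ‖dot p.2.1 ψ‖) M :=
  (hfun t ψ).continuous.integrable_of_hasCompactSupport (HasCompactSupport.of_compactSpace _)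

lemma integrable_PP {E : Type*} [NormedAddCommGroup E] (f : PP → E) (hf : Continuous f) :
    Integrable f M :=
  hf.integrable_of_hasCompactSupport (HasCompactSupport.of_compactSpace _)

end

lemma dot_tc (a : V3) (c : ℂ) : dot a (tc c) = a 1 + (c * a 0 + conj c * a 2) / 2 := by
  rw [dot_three]; simp [tc]; ring

lemma dot_tc_neg (a : V3) (c : ℂ) : dot a (tc (-c)) = a 1 - (c * a 0 + conj c * a 2) / 2 := by
  rw [dot_tc]; simp; ring

lemma dot_tc_zero (a : V3) : dot a (tc 0) = a 1 := by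
  rw [dot_tc]; simp

/-- the middle coordinate -/
def d1 : V3 := Pi.single 1 1

lemma dot_d1 (b : V3) : dot b d1 = b 1 := dot_single b 1

lemma adm_d1 : Adm d1 1 := adm_delta 1

section main
variable {M : Measure PP} [IsFiniteMeasure M]
  (hL : ∀ t ψ : V3, ‖dot ψ t‖ ≤ G M t ψ)
  (hU : ∀ (t ψ : V3) (D : ℝ), Adm ψ D → G M t ψ ≤ N1 t * D)

include hL hU

lemma G_tc (c : ℂ) (hc : ‖c‖ ≤ 1) : G M (tc c) d1 = 1 := by
  apply le_antisymm
  · have := hU (tc c) d1 1 adm_d1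
    rwa [N1_tc c hc, one_mul] at this
  · have := hL (tc c) d1
    have h2 : dot d1 (tc c) = 1 := by rw [dot_comm, dot_d1]; rfl
    rwa [h2, norm_one] at this

/-- Step B -/
lemma stepB (c : ℂ) (hc : ‖c‖ ≤ 1) :
    ∀ᵐ p ∂M, p.2.1 1 ≠ 0 →
      ∃ l : ℝ, |l| ≤ 1 ∧ (c * p.1.1 0 + conj c * p.1.1 2) / 2 = l * p.1.1 1 := by
  have e1 := G_tc hL hU c hc
  have e2 := G_tc hL hU (-c) (by simpa using hc)
  have e0 := G_tc hL hU 0 (by simp)
  have hint : ∫ p : PP, ((‖dot p.1.1 (tc c)‖ * ‖dot p.2.1 d1‖ +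
      ‖dot p.1.1 (tc (-c))‖ * ‖dot p.2.1 d1‖) -
      2 * (‖dot p.1.1 (tc 0)‖ * ‖dot p.2.1 d1‖)) ∂M = 0 := by
    have i12 : Integrable (fun p : PP => ‖dot p.1.1 (tc c)‖ * ‖dot p.2.1 d1‖ +
      ‖dot p.1.1 (tc (-c))‖ * ‖dot p.2.1 d1‖) M := (integrable_h M _ _).add (integrable_h M _ _)
    rw [integral_sub i12 ((integrable_h M _ _).const_mul 2),
      integral_add (integrable_h M _ _) (integrable_h M _ _), integral_const_mul]
    unfold G at e1 e2 e0
    rw [e1, e2, e0]; norm_num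
  have hnn : ∀ p : PP, 0 ≤ ((‖dot p.1.1 (tc c)‖ * ‖dot p.2.1 d1‖ +
      ‖dot p.1.1 (tc (-c))‖ * ‖dot p.2.1 d1‖) -
      2 * (‖dot p.1.1 (tc 0)‖ * ‖dot p.2.1 d1‖)) := by
    intro p
    rw [dot_tc, dot_tc_neg, dot_tc_zero, dot_d1]
    set w := (c * p.1.1 0 + conj c * p.1.1 2) / 2
    have h1 : 2 * ‖p.1.1 1‖ ≤ ‖p.1.1 1 + w‖ + ‖p.1.1 1 - w‖ := by
      calc 2 * ‖p.1.1 1‖ = ‖(p.1.1 1 + w) + (p.1.1 1 - w)‖ := by
            rw [show (p.1.1 1 + w) + (p.1.1 1 - w) = 2 * p.1.1 1 by ring, norm_mul]; simp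
        _ ≤ _ := norm_add_le _ _
    nlinarith [norm_nonneg (p.2.1 1)]
  have hi : Integrable (fun p : PP => ((‖dot p.1.1 (tc c)‖ * ‖dot p.2.1 d1‖ +
      ‖dot p.1.1 (tc (-c))‖ * ‖dot p.2.1 d1‖) -
      2 * (‖dot p.1.1 (tc 0)‖ * ‖dot p.2.1 d1‖))) M :=
    ((integrable_h M _ _).add (integrable_h M _ _)).sub ((integrable_h M _ _).const_mul 2)
  have h0 := (integral_eq_zero_iff_of_nonneg hnn hi).1 hint
  filter_upwards [h0] with p hp hb
  simp only [Pi.zero_apply] at hp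
  rw [dot_tc, dot_tc_neg, dot_tc_zero, dot_d1] at hp
  apply equality_case
  have hb' : ‖p.2.1 1‖ ≠ 0 := norm_ne_zero_iff.2 hb
  have : (‖p.1.1 1 + (c * p.1.1 0 + conj c * p.1.1 2) / 2‖ +
    ‖p.1.1 1 - (c * p.1.1 0 + conj c * p.1.1 2) / 2‖ - 2 * ‖p.1.1 1‖) * ‖p.2.1 1‖ = 0 := by
    rw [← hp]; ring
  have := (mul_eq_zero.1 this).resolve_right hb'
  linarith

/-- the perturbed functionals of step C -/
lemma stepC_aux (c y : ℂ) (hc : ‖c‖ ≤ 1) (x : ℝ) (hx : 0 < x) (hy : ‖y‖ ≤ 1) :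
    ∫ p in {p : PP | p.2.1 1 = 0},
      ‖dot p.1.1 (tc c)‖ * ‖y * p.2.1 0 - conj y * p.2.1 2‖ ∂M ≤ 2 * x := by
  have hplus : G M (tc c) ![x * y, 1, -conj (x * y)] ≤ 1 + 2 * x ^ 2 := by
    have := hU (tc c) _ _ (adm_y (x * y))
    rw [N1_tc c hc, one_mul, norm_mul, Complex.norm_real, Real.norm_of_nonneg hx.le] at this
    refine this.trans ?_
    have : (x * ‖y‖) ^ 2 ≤ x ^ 2 := by
      rw [mul_pow]
      have h1 : ‖y‖ ^ 2 ≤ 1 := pow_le_one₀ (norm_nonneg _) hy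
      nlinarith [sq_nonneg x]
    linarith
  have hminus : G M (tc c) ![-(x * y), 1, conj (x * y)] ≤ 1 + 2 * x ^ 2 := by
    have := hU (tc c) _ _ (adm_y (-(x * y)))
    rw [N1_tc c hc, one_mul, norm_neg, norm_mul, Complex.norm_real,
      Real.norm_of_nonneg hx.le, map_neg, neg_neg] at this
    refine this.trans ?_
    have : (x * ‖y‖) ^ 2 ≤ x ^ 2 := by
      rw [mul_pow]
      have h1 : ‖y‖ ^ 2 ≤ 1 := pow_le_one₀ (norm_nonneg _) hy
      nlinarith [sq_nonneg x]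
    linarith
  have h0 := G_tc hL hU c hc
  set Z : Set PP := {p : PP | p.2.1 1 = 0} with hZ
  have hZm : MeasurableSet Z := (isClosed_eq (continuous_pb 1) continuous_const).measurableSet
  have hzi : Continuous (fun p : PP => ‖dot p.1.1 (tc c)‖ * ‖y * p.2.1 0 - conj y * p.2.1 2‖) :=
    (((continuous_dot_left (tc c)).comp (continuous_subtype_val.comp continuous_fst)).norm).mul
      (((continuous_const.mul (continuous_pb 0)).sub (continuous_const.mul (continuous_pb 2))).norm)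
  have key : ∫ p in Z, 2 * x * (‖dot p.1.1 (tc c)‖ * ‖y * p.2.1 0 - conj y * p.2.1 2‖) ∂M ≤
      ∫ p : PP, ((‖dot p.1.1 (tc c)‖ * ‖dot p.2.1 ![x * y, 1, -conj (x * y)]‖ +
        ‖dot p.1.1 (tc c)‖ * ‖dot p.2.1 ![-(x * y), 1, conj (x * y)]‖) -
        2 * (‖dot p.1.1 (tc c)‖ * ‖dot p.2.1 d1‖)) ∂M := by
    rw [← integral_indicator hZm]
    apply integral_mono
    · exact ((integrable_PP M _ (continuous_const.mul hzi))).indicator hZm
    · exact ((integrable_h M _ _).add (integrable_h M _ _)).sub ((integrable_h M _ _).const_mul 2)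
    · intro p
      have e1 : dot p.2.1 ![x * y, 1, -conj (x * y)] =
          p.2.1 1 + x * (y * p.2.1 0 - conj y * p.2.1 2) := by
        rw [dot_three]; simp; ring
      have e2 : dot p.2.1 ![-(x * y), 1, conj (x * y)] =
          p.2.1 1 - x * (y * p.2.1 0 - conj y * p.2.1 2) := by
        rw [dot_three]; simp; ring
      dsimp only
      rw [e1, e2, dot_d1]
      set v := y * p.2.1 0 - conj y * p.2.1 2 with hv
      by_cases hp : p ∈ Z
      · rw [Set.indicator_of_mem hp]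
        have hp' : p.2.1 1 = 0 := hp
        rw [← hv, hp', zero_add, zero_sub, norm_neg, norm_zero, norm_mul, Complex.norm_real,
          Real.norm_of_nonneg hx.le]
        linarith
      · rw [Set.indicator_of_notMem hp]
        have h1 : 2 * ‖p.2.1 1‖ ≤ ‖p.2.1 1 + x * v‖ + ‖p.2.1 1 - x * v‖ := by
          calc 2 * ‖p.2.1 1‖ = ‖(p.2.1 1 + x * v) + (p.2.1 1 - x * v)‖ := by
                rw [show (p.2.1 1 + x * v) + (p.2.1 1 - x * v) = 2 * p.2.1 1 by ring, norm_mul]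
                simp
            _ ≤ _ := norm_add_le _ _
        nlinarith [norm_nonneg (dot p.1.1 (tc c))]
  have i12 : Integrable (fun p : PP => ‖dot p.1.1 (tc c)‖ * ‖dot p.2.1 ![x * y, 1, -conj (x * y)]‖ +
        ‖dot p.1.1 (tc c)‖ * ‖dot p.2.1 ![-(x * y), 1, conj (x * y)]‖) M :=
    (integrable_h M _ _).add (integrable_h M _ _)
  rw [integral_sub i12 ((integrable_h M _ _).const_mul 2),
      integral_add (integrable_h M _ _) (integrable_h M _ _), integral_const_mul,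
      integral_const_mul] at key
  unfold G at hplus hminus h0
  rw [h0] at key
  nlinarith [key, hplus, hminus]

lemma stepC_ae (c y : ℂ) (hc : ‖c‖ ≤ 1) (hy : ‖y‖ ≤ 1) :
    ∀ᵐ p ∂M, p.2.1 1 = 0 → ‖dot p.1.1 (tc c)‖ * ‖y * p.2.1 0 - conj y * p.2.1 2‖ = 0 := by
  set Z : Set PP := {p : PP | p.2.1 1 = 0} with hZ
  have hZm : MeasurableSet Z := (isClosed_eq (continuous_pb 1) continuous_const).measurableSet
  have hzi : Continuous (fun p : PP => ‖dot p.1.1 (tc c)‖ * ‖y * p.2.1 0 - conj y * p.2.1 2‖) :=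
    (((continuous_dot_left (tc c)).comp (continuous_subtype_val.comp continuous_fst)).norm).mul
      (((continuous_const.mul (continuous_pb 0)).sub (continuous_const.mul (continuous_pb 2))).norm)
  have h0 : ∫ p in Z, ‖dot p.1.1 (tc c)‖ * ‖y * p.2.1 0 - conj y * p.2.1 2‖ ∂M = 0 := by
    apply le_antisymm
    · apply le_of_forall_pos_le_add
      intro e he
      have := stepC_aux hL hU c y hc (e / 2) (by positivity) hy
      linarith
    · exact integral_nonneg fun p => by positivity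
  have h1 := (integral_eq_zero_iff_of_nonneg (fun p => by positivity)
    ((integrable_PP M _ hzi).restrict)).1 h0
  rw [Filter.EventuallyEq, ae_restrict_iff' hZm] at h1
  filter_upwards [h1] with p hp hb
  exact hp hb

lemma stepC : ∀ᵐ p ∂M, p.2.1 1 ≠ 0 := by
  have hI : ‖Complex.I‖ ≤ 1 := by simp
  have h1 : ‖(1 : ℂ)‖ ≤ 1 := by simp
  have h0 : ‖(0 : ℂ)‖ ≤ 1 := by simp
  filter_upwards [stepC_ae hL hU 0 1 h0 h1, stepC_ae hL hU 0 Complex.I h0 hI,
    stepC_ae hL hU 1 1 h1 h1, stepC_ae hL hU 1 Complex.I h1 hI,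
    stepC_ae hL hU Complex.I 1 hI h1, stepC_ae hL hU Complex.I Complex.I hI hI]
    with p p1 p2 p3 p4 p5 p6 hb
  have q1 := p1 hb
  have q2 := p2 hb
  have q3 := p3 hb
  have q4 := p4 hb
  have q5 := p5 hb
  have q6 := p6 hb
  rw [dot_tc_zero] at q1 q2
  rw [dot_tc] at q3 q4 q5 q6
  have hor : p.2.1 0 - p.2.1 2 ≠ 0 ∨ p.2.1 0 + p.2.1 2 ≠ 0 := by
    by_contra hcon
    push Not at hcon
    apply pb_ne p
    refine ⟨?_, hb, ?_⟩
    · linear_combination (hcon.1 + hcon.2) / 2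
    · linear_combination (hcon.2 - hcon.1) / 2
  have hfin : ∀ (v : ℂ), v ≠ 0 → ‖p.1.1 1‖ * ‖v‖ = 0 →
      ‖p.1.1 1 + (1 * p.1.1 0 + conj 1 * p.1.1 2) / 2‖ * ‖v‖ = 0 →
      ‖p.1.1 1 + (Complex.I * p.1.1 0 + conj Complex.I * p.1.1 2) / 2‖ * ‖v‖ = 0 → False := by
    intro v hv k1 k2 k3
    have hv' : ‖v‖ ≠ 0 := norm_ne_zero_iff.2 hv
    have k1' := norm_eq_zero.1 ((mul_eq_zero.1 k1).resolve_right hv')
    have k2' := norm_eq_zero.1 ((mul_eq_zero.1 k2).resolve_right hv')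
    have k3' := norm_eq_zero.1 ((mul_eq_zero.1 k3).resolve_right hv')
    rw [k1', zero_add] at k2' k3'
    simp only [map_one, one_mul, Complex.conj_I] at k2' k3'
    apply pa_ne p
    have hI2 := Complex.I_mul_I
    refine ⟨?_, k1', ?_⟩
    · linear_combination k2' - Complex.I * k3' + (1 / 2) * (p.1.1 0 - p.1.1 2) * hI2
    · linear_combination k2' + Complex.I * k3' - (1 / 2) * (p.1.1 0 - p.1.1 2) * hI2
  rcases hor with hv | hv
  · refine hfin _ hv ?_ ?_ ?_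
    · simpa using q1
    · simpa using q3
    · simpa using q5
  · have hv' : Complex.I * (p.2.1 0 + p.2.1 2) ≠ 0 := mul_ne_zero Complex.I_ne_zero hv
    have e : Complex.I * p.2.1 0 - conj Complex.I * p.2.1 2 = Complex.I * (p.2.1 0 + p.2.1 2) := by
      rw [Complex.conj_I]; ring
    rw [e] at q2 q4 q6
    exact hfin _ hv' q2 q4 q6

end main

end HB
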