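import Pool.Agent.Helper821.HB.Rigid2

open MeasureTheory Filter Topology
open scoped ComplexConjugate

noncomputable section

namespace HB

/-- normalized coordinates of `b` -/
def bq (j : Fin 3) (p : PP) : ℂ := p.2.1 j * conj (p.2.1 1) / ‖p.2.1 1‖

lemma measurable_bq (j : Fin 3) : Measurable (bq j) := by
  unfold bq
  exact (((continuous_pb j).mul (Complex.continuous_conj.comp (continuous_pb 1))).measurable).div
    ((Complex.continuous_ofReal.comp (continuous_pb 1).norm).measurable)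

lemma norm_bq_le (j : Fin 3) (p : PP) : ‖bq j p‖ ≤ 1 := by
  unfold bq
  rw [norm_div, norm_mul, RCLike.norm_conj, Complex.norm_real, norm_norm]
  by_cases h : ‖p.2.1 1‖ = 0
  · rw [h]; simp
  · rw [mul_div_assoc, div_self h, mul_one]; exact norm_pb_le p j

lemma bq_one (p : PP) : bq 1 p = (‖p.2.1 1‖ : ℝ) := by
  unfold bq
  by_cases h : ‖p.2.1 1‖ = 0
  · rw [norm_eq_zero.1 h]; simp
  · rw [Complex.mul_conj, Complex.normSq_eq_norm_sq, div_eq_iff (by exact_mod_cast h)]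
    push_cast; ring

/-- `T c = |a · t_c|` -/
def TT (c : ℂ) (p : PP) : ℝ := ‖dot p.1.1 (tc c)‖

lemma continuous_TT (c : ℂ) : Continuous (TT c) :=
  ((continuous_dot_left (tc c)).comp (continuous_subtype_val.comp continuous_fst)).norm

lemma TT_le (c : ℂ) (hc : ‖c‖ ≤ 1) (p : PP) : TT c p ≤ 2 := by
  unfold TT
  rw [dot_tc]
  have h0 := norm_pa_le p 0
  have h1 := norm_pa_le p 1
  have h2 := norm_pa_le p 2
  have h3 : ‖(c * p.1.1 0 + conj c * p.1.1 2) / 2‖ ≤ 1 := by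
    rw [norm_div, Complex.norm_two, div_le_one (by norm_num)]
    refine (norm_add_le _ _).trans ?_
    rw [norm_mul, norm_mul, RCLike.norm_conj]
    nlinarith [norm_nonneg c, norm_nonneg (p.1.1 0), norm_nonneg (p.1.1 2)]
  exact (norm_add_le _ _).trans (by linarith)

lemma TT_nonneg (c : ℂ) (p : PP) : 0 ≤ TT c p := norm_nonneg _

section main
variable {M : Measure PP} [IsFiniteMeasure M]
  (hL : ∀ t ψ : V3, ‖dot ψ t‖ ≤ G M t ψ)
  (hU : ∀ (t ψ : V3) (D : ℝ), Adm ψ D → G M t ψ ≤ N1 t * D)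

omit hL hU in
lemma integrable_Tb (c : ℂ) (hc : ‖c‖ ≤ 1) (j : Fin 3) :
    Integrable (fun p => (TT c p : ℂ) * bq j p) M := by
  refine Integrable.of_bound ((Complex.continuous_ofReal.comp
    (continuous_TT c)).measurable.mul (measurable_bq j)).aestronglyMeasurable 2
    (Eventually.of_forall fun p => ?_)
  rw [norm_mul, Complex.norm_real, Real.norm_of_nonneg (TT_nonneg c p)]
  have h1 := TT_le c hc p
  have h2 := norm_bq_le j p
  have h3 := TT_nonneg c p
  nlinarith [norm_nonneg (bq j p)]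

include hL hU

/-- Step E, one-sided -/
lemma stepE (c : ℂ) (hc : ‖c‖ ≤ 1) (y0 y2 : ℂ) :
    ((c * y0 + conj c * y2) / 2).re ≤
      ∫ p, TT c p * (y0 * bq 0 p + y2 * bq 2 p).re ∂M := by
  set w : PP → ℂ := fun p => y0 * p.2.1 0 + y2 * p.2.1 2 with hw
  have hwc : Continuous w :=
    (continuous_const.mul (continuous_pb 0)).add (continuous_const.mul (continuous_pb 2))
  set F : ℕ → PP → ℝ := fun n p => TT c p * ((‖p.2.1 1 + (xs n : ℂ) * w p‖ - ‖p.2.1 1‖) / xs n)
    with hF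
  have hwb : ∀ p, ‖w p‖ ≤ ‖y0‖ + ‖y2‖ := by
    intro p
    refine (norm_add_le _ _).trans ?_
    rw [norm_mul, norm_mul]
    have h0 := norm_pb_le p 0
    have h2 := norm_pb_le p 2
    nlinarith [norm_nonneg y0, norm_nonneg y2]
  have hlim : Tendsto (fun n => ∫ p, F n p ∂M) atTop
      (𝓝 (∫ p, TT c p * (y0 * bq 0 p + y2 * bq 2 p).re ∂M)) := by
    apply tendsto_integral_of_dominated_convergence (fun _ => 2 * (‖y0‖ + ‖y2‖))
    · intro n
      apply Continuous.aestronglyMeasurable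
      have h1 := continuous_TT c
      have h2 := continuous_pb 1
      exact h1.mul ((((h2.add (continuous_const.mul hwc)).norm).sub h2.norm).div_const _)
    · exact integrable_const _
    · intro n
      refine Eventually.of_forall fun p => ?_
      rw [hF]
      dsimp only
      rw [norm_mul, Real.norm_of_nonneg (TT_nonneg c p), Real.norm_eq_abs]
      have h1 := abs_slope_le (p.2.1 1) (w p) n
      have h2 := hwb p
      exact mul_le_mul (TT_le c hc p) (h1.trans h2) (abs_nonneg _) (by norm_num)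
    · filter_upwards [stepC hL hU] with p hp
      have h1 := (tendsto_slope (p.2.1 1) (w p) hp).const_mul (TT c p)
      have h2 : (w p * conj (p.2.1 1)).re / ‖p.2.1 1‖ = (y0 * bq 0 p + y2 * bq 2 p).re := by
        have : y0 * bq 0 p + y2 * bq 2 p = (w p * conj (p.2.1 1)) / (‖p.2.1 1‖ : ℝ) := by
          unfold bq
          rw [hw]; ring
        rw [this, Complex.div_ofReal_re]
      rw [h2] at h1
      exact h1
  refine ge_of_tendsto' hlim fun n => ?_
  have e0 := G_tc hL hU c hc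
  have hx := xs_pos n
  have e1 := hL (tc c) ![(xs n) * y0, 1, (xs n) * y2]
  have e2 : dot ![(xs n) * y0, 1, (xs n) * y2] (tc c) =
      1 + (xs n : ℂ) * ((c * y0 + conj c * y2) / 2) := by
    rw [dot_tc]; simp; ring
  rw [e2] at e1
  have e3 : 1 + xs n * ((c * y0 + conj c * y2) / 2).re ≤
      ‖1 + (xs n : ℂ) * ((c * y0 + conj c * y2) / 2)‖ := by
    refine le_trans (le_of_eq ?_) (Complex.re_le_norm _)
    rw [Complex.add_re, Complex.re_ofReal_mul]; simp
  have e4 : ∫ p, F n p ∂M = (G M (tc c) ![(xs n) * y0, 1, (xs n) * y2] - G M (tc c) d1) / xs n := by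
    unfold G
    rw [← integral_sub (integrable_h M _ _) (integrable_h M _ _), ← integral_div]
    congr 1
    ext p
    have e5 : dot p.2.1 ![(xs n) * y0, 1, (xs n) * y2] = p.2.1 1 + (xs n : ℂ) * w p := by
      rw [dot_three, hw]; simp; ring
    rw [e5, dot_d1, hF]
    dsimp only
    unfold TT
    ring
  rw [e4, e0, le_div_iff₀ hx]
  linarith

lemma stepE' (c : ℂ) (hc : ‖c‖ ≤ 1) (y0 y2 : ℂ) :
    ∫ p, TT c p * (y0 * bq 0 p + y2 * bq 2 p).re ∂M = ((c * y0 + conj c * y2) / 2).re := by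
  apply le_antisymm
  · have h1 := stepE hL hU c hc (-y0) (-y2)
    have h2 : ((c * -y0 + conj c * -y2) / 2).re = - ((c * y0 + conj c * y2) / 2).re := by
      rw [← Complex.neg_re]; congr 1; ring
    have h3 : (fun p => TT c p * (-y0 * bq 0 p + -y2 * bq 2 p).re) =
        fun p => -(TT c p * (y0 * bq 0 p + y2 * bq 2 p).re) := by
      ext p
      have : -y0 * bq 0 p + -y2 * bq 2 p = -(y0 * bq 0 p + y2 * bq 2 p) := by ring
      rw [this, Complex.neg_re]; ring
    rw [h3, integral_neg, h2] at h1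
    linarith
  · exact stepE hL hU c hc y0 y2

lemma stepF (c : ℂ) (hc : ‖c‖ ≤ 1) (y0 y2 : ℂ) :
    ∫ p, (TT c p : ℂ) * (y0 * bq 0 p + y2 * bq 2 p) ∂M = (c * y0 + conj c * y2) / 2 := by
  have hi : Integrable (fun p => (TT c p : ℂ) * (y0 * bq 0 p + y2 * bq 2 p)) M := by
    have h1 := ((integrable_Tb (M := M) c hc 0).const_mul y0).add
      ((integrable_Tb (M := M) c hc 2).const_mul y2)
    refine h1.congr (Eventually.of_forall fun p => ?_)
    simp only [Pi.add_apply]; ring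
  apply Complex.ext
  · have h1 : (∫ p, (TT c p : ℂ) * (y0 * bq 0 p + y2 * bq 2 p) ∂M).re =
        ∫ p, ((TT c p : ℂ) * (y0 * bq 0 p + y2 * bq 2 p)).re ∂M := (integral_re hi).symm
    rw [h1, ← stepE' hL hU c hc y0 y2]
    congr 1
    ext p
    rw [Complex.re_ofReal_mul]
  · have h1 : (∫ p, (TT c p : ℂ) * (y0 * bq 0 p + y2 * bq 2 p) ∂M).im =
        ∫ p, ((TT c p : ℂ) * (y0 * bq 0 p + y2 * bq 2 p)).im ∂M := (integral_im hi).symm
    have h2 := stepE' hL hU c hc (-Complex.I * y0) (-Complex.I * y2)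
    have h3 : ((c * (-Complex.I * y0) + conj c * (-Complex.I * y2)) / 2).re =
        ((c * y0 + conj c * y2) / 2).im := by
      have : (c * (-Complex.I * y0) + conj c * (-Complex.I * y2)) / 2 =
        -(Complex.I * ((c * y0 + conj c * y2) / 2)) := by ring
      rw [this, Complex.neg_re, Complex.I_mul_re, neg_neg]
    rw [h1, ← h3, ← h2]
    congr 1
    ext p
    have : -Complex.I * y0 * bq 0 p + -Complex.I * y2 * bq 2 p =
      -(Complex.I * (y0 * bq 0 p + y2 * bq 2 p)) := by ring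
    rw [this, Complex.im_ofReal_mul, Complex.neg_re, Complex.I_mul_re, neg_neg]

lemma stepF1 (c : ℂ) (hc : ‖c‖ ≤ 1) :
    ∫ p, (TT c p : ℂ) * bq 1 p ∂M = 1 := by
  have h1 := G_tc hL hU c hc
  unfold G at h1
  have h2 : (∫ p, (TT c p : ℂ) * bq 1 p ∂M) =
      ((∫ p : PP, ‖dot p.1.1 (tc c)‖ * ‖dot p.2.1 d1‖ ∂M : ℝ) : ℂ) := by
    rw [← integral_complex_ofReal]
    congr 1
    ext p
    rw [bq_one, dot_d1]
    unfold TT
    push_cast; ring
  rw [h2, h1]; simp

/-- `∫ T_c (Σ ψ_j β_j) = ψ · t_c` -/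
lemma stepFψ (c : ℂ) (hc : ‖c‖ ≤ 1) (ψ : V3) :
    ∫ p, (TT c p : ℂ) * (ψ 0 * bq 0 p + ψ 1 * bq 1 p + ψ 2 * bq 2 p) ∂M = dot ψ (tc c) := by
  have hi : Integrable (fun p => (TT c p : ℂ) * (ψ 0 * bq 0 p + ψ 2 * bq 2 p)) M := by
    have h1 := ((integrable_Tb (M := M) c hc 0).const_mul (ψ 0)).add
      ((integrable_Tb (M := M) c hc 2).const_mul (ψ 2))
    refine h1.congr (Eventually.of_forall fun p => ?_)
    simp only [Pi.add_apply]; ring
  have e : (fun p => (TT c p : ℂ) * (ψ 0 * bq 0 p + ψ 1 * bq 1 p + ψ 2 * bq 2 p)) =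
      fun p => (TT c p : ℂ) * (ψ 0 * bq 0 p + ψ 2 * bq 2 p) + ψ 1 * ((TT c p : ℂ) * bq 1 p) := by
    ext p; ring
  rw [e, integral_add hi ((integrable_Tb (M := M) c hc 1).const_mul _), integral_const_mul,
    stepF hL hU c hc, stepF1 hL hU c hc, dot_tc]
  ring

/-- structure of `a` almost everywhere -/
lemma stepD : ∀ᵐ p ∂M, ∃ z : ℂ, |z.re| ≤ 1 ∧ |z.im| ≤ 1 ∧ p.1.1 0 = z * p.1.1 1 ∧
    p.1.1 2 = conj z * p.1.1 1 := by
  filter_upwards [stepC hL hU, stepB hL hU 1 (by simp), stepB hL hU Complex.I (by simp)]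
    with p hp h1 h2
  obtain ⟨l1, hl1, e1⟩ := h1 hp
  obtain ⟨l2, hl2, e2⟩ := h2 hp
  refine ⟨⟨l1, -l2⟩, hl1, by simpa using hl2, ?_, ?_⟩
  · have hz : (⟨l1, -l2⟩ : ℂ) = l1 - l2 * Complex.I := by
      apply Complex.ext <;> simp
    rw [hz]
    simp only [map_one, one_mul, Complex.conj_I] at e1 e2
    have hI2 := Complex.I_mul_I
    linear_combination e1 - Complex.I * e2 + (1 / 2) * (p.1.1 0 - p.1.1 2) * hI2
  · have hz : conj (⟨l1, -l2⟩ : ℂ) = l1 + l2 * Complex.I := by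
      apply Complex.ext <;> simp
    rw [hz]
    simp only [map_one, one_mul, Complex.conj_I] at e1 e2
    have hI2 := Complex.I_mul_I
    linear_combination e1 + Complex.I * e2 - (1 / 2) * (p.1.1 0 - p.1.1 2) * hI2

end main

/-- `α₀` -/
def A0 (p : PP) : ℂ := ((TT 1 p - TT 0 p : ℝ) : ℂ) - Complex.I * ((TT Complex.I p - TT 0 p : ℝ) : ℂ)

lemma conj_A0 (p : PP) : conj (A0 p) =
    ((TT 1 p - TT 0 p : ℝ) : ℂ) + Complex.I * ((TT Complex.I p - TT 0 p : ℝ) : ℂ) := by
  unfold A0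
  simp only [map_sub, map_mul, Complex.conj_ofReal, Complex.conj_I]
  ring

lemma A0_eq (p : PP) (z : ℂ) (h1 : |z.re| ≤ 1) (h2 : |z.im| ≤ 1) (h3 : p.1.1 0 = z * p.1.1 1)
    (h4 : p.1.1 2 = conj z * p.1.1 1) : A0 p = z * (‖p.1.1 1‖ : ℝ) := by
  have hT0 : TT 0 p = ‖p.1.1 1‖ := by unfold TT; rw [dot_tc_zero]
  have hT1 : TT 1 p = (1 + z.re) * ‖p.1.1 1‖ := by
    unfold TT; rw [dot_tc, h3, h4]
    have : p.1.1 1 + (1 * (z * p.1.1 1) + conj 1 * (conj z * p.1.1 1)) / 2 =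
        ((1 + z.re : ℝ) : ℂ) * p.1.1 1 := by
      have hz : (z.re : ℂ) = (z + conj z) / 2 := by rw [Complex.add_conj]; push_cast; ring
      push_cast; rw [hz]; simp; ring
    rw [this, norm_mul, Complex.norm_real, Real.norm_of_nonneg (by linarith [(abs_le.1 h1).1])]
  have hTI : TT Complex.I p = (1 - z.im) * ‖p.1.1 1‖ := by
    unfold TT; rw [dot_tc, h3, h4]
    have : p.1.1 1 + (Complex.I * (z * p.1.1 1) + conj Complex.I * (conj z * p.1.1 1)) / 2 =
        ((1 - z.im : ℝ) : ℂ) * p.1.1 1 := by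
      have hz : (z.im : ℂ) * Complex.I = (z - conj z) / 2 := by
        rw [Complex.sub_conj]; push_cast; ring
      have hI2 := Complex.I_mul_I
      push_cast; rw [Complex.conj_I]
      linear_combination (-Complex.I * p.1.1 1) * hz + (z.im : ℂ) * p.1.1 1 * hI2
    rw [this, norm_mul, Complex.norm_real, Real.norm_of_nonneg (by linarith [(abs_le.1 h2).2])]
  unfold A0
  rw [hT0, hT1, hTI]
  have hz : z = z.re + z.im * Complex.I := (Complex.re_add_im z).symm
  conv_rhs => rw [hz]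
  push_cast
  ring

section main2
variable {M : Measure PP} [IsFiniteMeasure M]
  (hL : ∀ t ψ : V3, ‖dot ψ t‖ ≤ G M t ψ)
  (hU : ∀ (t ψ : V3) (D : ℝ), Adm ψ D → G M t ψ ≤ N1 t * D)

include hL hU

/-- the integral of a product -/
lemma stepG (k0 k1 kI : ℂ) (ψ : V3) :
    Integrable (fun p => (k0 * TT 0 p + k1 * TT 1 p + kI * TT Complex.I p) *
      (ψ 0 * bq 0 p + ψ 1 * bq 1 p + ψ 2 * bq 2 p)) M ∧
    ∫ p, (k0 * TT 0 p + k1 * TT 1 p + kI * TT Complex.I p) *
      (ψ 0 * bq 0 p + ψ 1 * bq 1 p + ψ 2 * bq 2 p) ∂M =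
    k0 * dot ψ (tc 0) + k1 * dot ψ (tc 1) + kI * dot ψ (tc Complex.I) := by
  have hi : ∀ c : ℂ, ‖c‖ ≤ 1 → Integrable (fun p => (TT c p : ℂ) *
      (ψ 0 * bq 0 p + ψ 1 * bq 1 p + ψ 2 * bq 2 p)) M := by
    intro c hc
    have h1 := (((integrable_Tb (M := M) c hc 0).const_mul (ψ 0)).add
      ((integrable_Tb (M := M) c hc 1).const_mul (ψ 1))).add
      ((integrable_Tb (M := M) c hc 2).const_mul (ψ 2))
    refine h1.congr (Eventually.of_forall fun p => ?_)
    simp only [Pi.add_apply]; ring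
  have i0 := (hi 0 (by simp)).const_mul k0
  have i1 := (hi 1 (by simp)).const_mul k1
  have iI := (hi Complex.I (by simp)).const_mul kI
  have i01 : Integrable (fun p => k0 * ((TT 0 p : ℂ) *
      (ψ 0 * bq 0 p + ψ 1 * bq 1 p + ψ 2 * bq 2 p)) + k1 * ((TT 1 p : ℂ) *
      (ψ 0 * bq 0 p + ψ 1 * bq 1 p + ψ 2 * bq 2 p))) M := i0.add i1
  have e : (fun p => (k0 * TT 0 p + k1 * TT 1 p + kI * TT Complex.I p) *
      (ψ 0 * bq 0 p + ψ 1 * bq 1 p + ψ 2 * bq 2 p)) = fun p => k0 * ((TT 0 p : ℂ) *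
      (ψ 0 * bq 0 p + ψ 1 * bq 1 p + ψ 2 * bq 2 p)) + k1 * ((TT 1 p : ℂ) *
      (ψ 0 * bq 0 p + ψ 1 * bq 1 p + ψ 2 * bq 2 p)) + kI * ((TT Complex.I p : ℂ) *
      (ψ 0 * bq 0 p + ψ 1 * bq 1 p + ψ 2 * bq 2 p)) := by
    ext p; ring
  rw [e]
  refine ⟨i01.add iI, ?_⟩
  rw [integral_add i01 iI, integral_add i0 i1, integral_const_mul, integral_const_mul,
    integral_const_mul, stepFψ hL hU 0 (by simp), stepFψ hL hU 1 (by simp),
    stepFψ hL hU Complex.I (by simp)]

/-- positivity at the dual pairs -/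
lemma stepH (s : ℂ) (hs : ‖s‖ = 1) : ∀ᵐ p ∂M,
    ((A0 p * bq 0 p * (2 / Real.pi) + TT 0 p * bq 1 p * (2 / Real.pi)) +
      conj s * (A0 p * bq 1 p * (2 / Real.pi) + TT 0 p * bq 2 p * (-2 / (3 * Real.pi))) +
      conj s ^ 2 * (A0 p * bq 2 p * (-2 / (3 * Real.pi))) +
      s * (TT 0 p * bq 0 p * (2 / Real.pi))).im = 0 := by
  set ψ : V3 := ![(2 / Real.pi : ℂ), conj s * (2 / Real.pi), conj s ^ 2 * (-2 / (3 * Real.pi))]
    with hψ
  have hss : s * conj s = 1 := by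
    rw [Complex.mul_conj, Complex.normSq_eq_norm_sq, hs]; norm_num
  set f : PP → ℂ := fun p => ((-1 + Complex.I + s) * TT 0 p + 1 * TT 1 p +
    (-Complex.I) * TT Complex.I p) * (ψ 0 * bq 0 p + ψ 1 * bq 1 p + ψ 2 * bq 2 p) with hf
  obtain ⟨hi, hint⟩ := stepG hL hU (-1 + Complex.I + s) 1 (-Complex.I) ψ
  have hval : ∫ p, f p ∂M = (nval : ℂ) := by
    rw [hf]
    dsimp only
    rw [hint, dot_tc_zero, dot_tc, dot_tc, hψ]
    simp only [Matrix.cons_val_zero, Matrix.cons_val_one, Matrix.cons_val, map_one, one_mul,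
      Complex.conj_I, nval]
    have hI2 := Complex.I_mul_I
    push_cast
    linear_combination (2 / Real.pi : ℂ) * hss +
      (-(2 / Real.pi : ℂ) / 2 + (conj s ^ 2 * (-2 / (3 * Real.pi)) : ℂ) / 2) * hI2
  have hnorm : ∀ᵐ p ∂M, ‖f p‖ = ‖dot p.1.1 ![1, s, 0]‖ * ‖dot p.2.1 ψ‖ := by
    filter_upwards [stepC hL hU, stepD hL hU] with p hp hz
    obtain ⟨z, h1, h2, h3, h4⟩ := hz
    have hA := A0_eq p z h1 h2 h3 h4
    have hT0 : TT 0 p = ‖p.1.1 1‖ := by unfold TT; rw [dot_tc_zero]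
    rw [hf]
    dsimp only
    rw [norm_mul]
    congr 1
    · have e1 : (-1 + Complex.I + s) * TT 0 p + 1 * TT 1 p + (-Complex.I) * TT Complex.I p =
          (z + s) * (‖p.1.1 1‖ : ℝ) := by
        have e3 : (z + s) * (‖p.1.1 1‖ : ℝ) = A0 p + s * TT 0 p := by
          rw [hA, hT0]; ring
        rw [e3]
        unfold A0
        push_cast
        ring
      have e2 : dot p.1.1 ![1, s, 0] = (z + s) * p.1.1 1 := by
        rw [dot_three, h3]; simp; ring
      rw [e1, e2, norm_mul, norm_mul, Complex.norm_real, norm_norm]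
    · have e1 : ψ 0 * bq 0 p + ψ 1 * bq 1 p + ψ 2 * bq 2 p =
          dot p.2.1 ψ * (conj (p.2.1 1) / ‖p.2.1 1‖) := by
        rw [dot_three]; unfold bq; ring
      have hn : ‖p.2.1 1‖ ≠ 0 := norm_ne_zero_iff.2 hp
      rw [e1, norm_mul, norm_div, RCLike.norm_conj, Complex.norm_real, norm_norm, div_self hn,
        mul_one]
  have hle : ∫ p, ‖f p‖ ∂M ≤ nval := by
    rw [integral_congr_ae hnorm]
    have := hU ![1, s, 0] ψ 1 (adm_s s hs)
    rwa [N1_s s hs, mul_one] at this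
  have hre : ∫ p, (f p).re ∂M = nval := by
    have : (∫ p, f p ∂M).re = ∫ p, (f p).re ∂M := (integral_re hi).symm
    rw [← this, hval]; simp
  have h0 : ∫ p, (‖f p‖ - (f p).re) ∂M = 0 := by
    apply le_antisymm
    · have hi1 : Integrable (fun p => ‖f p‖) M := hi.norm
      have hi2 : Integrable (fun p => (f p).re) M := hi.re
      rw [integral_sub hi1 hi2, hre]; linarith
    · exact integral_nonneg fun p => sub_nonneg.2 (Complex.re_le_norm _)
  have hii : Integrable (fun p => ‖f p‖ - (f p).re) M := hi.norm.sub hi.re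
  have h1 := (integral_eq_zero_iff_of_nonneg
    (fun p => sub_nonneg.2 (Complex.re_le_norm _)) hii).1 h0
  filter_upwards [h1] with p hp
  have h2 : ‖f p‖ = (f p).re := by simpa [sub_eq_zero] using hp
  have h3 : (f p).im = 0 := by
    have h4 : ‖f p‖ ^ 2 = (f p).re ^ 2 + (f p).im ^ 2 := by
      rw [← Complex.normSq_eq_norm_sq, Complex.normSq_apply]; ring
    rw [h2] at h4
    have : (f p).im ^ 2 = 0 := by linarith
    exact pow_eq_zero_iff two_ne_zero |>.1 this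
  rw [← h3]
  congr 1
  rw [hf, hψ]
  simp only [Matrix.cons_val_zero, Matrix.cons_val_one, Matrix.cons_val]
  have e1 : (-1 + Complex.I + s) * TT 0 p + 1 * TT 1 p + (-Complex.I) * TT Complex.I p =
      A0 p + s * TT 0 p := by
    unfold A0; push_cast; ring
  rw [e1]
  linear_combination (-(TT 0 p * bq 1 p * (2 / Real.pi : ℂ)) -
    conj s * (TT 0 p * bq 2 p * (-2 / (3 * Real.pi)) : ℂ)) * hss

theorem rigid : False := by
  have h1 : ‖(1 : ℂ)‖ = 1 := by simp
  have h2 : ‖(-1 : ℂ)‖ = 1 := by simp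
  have h3 : ‖Complex.I‖ = 1 := by simp
  have h4 : ‖-Complex.I‖ = 1 := by simp
  have h5 : ‖(⟨3 / 5, 4 / 5⟩ : ℂ)‖ = 1 := by
    have : ‖(⟨3 / 5, 4 / 5⟩ : ℂ)‖ ^ 2 = 1 := by
      rw [← Complex.normSq_eq_norm_sq, Complex.normSq_apply]; norm_num
    nlinarith [norm_nonneg (⟨3 / 5, 4 / 5⟩ : ℂ)]
  have hzero : ∀ᵐ p ∂M, conj (A0 p) * bq 2 p = 0 := by
    filter_upwards [stepH hL hU _ h1, stepH hL hU _ h2, stepH hL hU _ h3, stepH hL hU _ h4,
      stepH hL hU _ h5] with p q1 q2 q3 q4 q5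
    have hC := final_alg _ _ _ _ q1 q2 q3 q4 q5
    have hp : (-2 / (3 * Real.pi) : ℂ) ≠ 0 := by
      have : (Real.pi : ℂ) ≠ 0 := by exact_mod_cast Real.pi_ne_zero
      exact div_ne_zero (by norm_num) (mul_ne_zero (by norm_num) this)
    have h6 := (mul_eq_zero.1 hC).resolve_right hp
    rcases mul_eq_zero.1 h6 with h7 | h7
    · rw [h7]; simp
    · rw [h7]; simp
  have hint : ∫ p, conj (A0 p) * bq 2 p ∂M = 1 := by
    have h6 := (stepG hL hU (-1 - Complex.I) 1 Complex.I ![0, 0, 1]).2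
    have h7 : (fun p => conj (A0 p) * bq 2 p) = fun p => ((-1 - Complex.I) * TT 0 p + 1 * TT 1 p +
        Complex.I * TT Complex.I p) * ((![0, 0, 1] : V3) 0 * bq 0 p + (![0, 0, 1] : V3) 1 * bq 1 p +
        (![0, 0, 1] : V3) 2 * bq 2 p) := by
      ext p
      rw [conj_A0]
      simp only [Matrix.cons_val_zero, Matrix.cons_val_one, Matrix.cons_val]
      push_cast
      ring
    rw [h7, h6, dot_tc_zero, dot_tc, dot_tc]
    simp only [Matrix.cons_val_zero, Matrix.cons_val_one, Matrix.cons_val, Complex.conj_I, map_one]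
    linear_combination (-(1 / 2 : ℂ)) * Complex.I_mul_I
  rw [integral_congr_ae hzero] at hint
  simp at hint

end main2

/-- Main conclusion of the rigidity argument: there is always a certificate. -/
theorem exists_cert : ¬ (∀ C : Cert, (∀ a b, C.lo a b ≤ C.up a b) → C.lov ≤ C.upv) := by
  intro hNC
  obtain ⟨M, hM, hL, hU⟩ := exists_measure hNC
  exact rigid (M := M) hL hU

end HB
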